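import Pool.Agent.V8H43.SE.Dyn

/-!
# Isomorphisms of the skew products
-/

set_option autoImplicit false

open Filter Topology MeasureTheory AddCircle
open scoped ENNReal

noncomputable section

namespace Pool.Agent.V8H43.SE

instance instProbM2 : IsProbabilityMeasure (volume : Measure M2) :=
  inferInstanceAs (IsProbabilityMeasure ((volume : Measure TT).prod (volume : Measure TT)))

/-- If `SK (FF b)` is a factor of `SK (FF a)` then `a k - b k` tends to `0`. -/
theorem tendsto_of_factor {a b : ℕ → ℝ} (ha : Bd a) (hb : Bd b) (φ : M2 → M2)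
    (hφ : MeasurePreserving φ (volume : Measure M2) volume)
    (hc : φ ∘ SK (FF a) aT =ᵐ[volume] SK (FF b) aT ∘ φ) :
    Tendsto (fun k => a k - b k) atTop (𝓝 0) := by
  have hS := mp_SK (continuous_FF ha) aT
  -- the first coordinate
  have h1 : ∃ c : TT, ∀ᵐ p : M2, (φ p).1 = p.1 + c := by
    have hm : AEStronglyMeasurable (fun p : M2 => (φ p).1 - p.1) (volume : Measure M2) :=
      ((measurable_fst.comp hφ.measurable).sub measurable_fst).aestronglyMeasurable
    have he : (fun p : M2 => (φ p).1 - p.1) ∘ SK (FF a) aT =ᵐ[volume]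
        fun p : M2 => (φ p).1 - p.1 := by
      filter_upwards [hc] with p hp
      have h2 : (φ (SK (FF a) aT p)).1 = (φ p).1 + aT := congrArg Prod.fst hp
      change (φ (SK (FF a) aT p)).1 - (p.1 + aT) = (φ p).1 - p.1
      rw [h2]
      abel
    obtain ⟨c, hc⟩ := (ergodic_SK ha).ae_eq_const_of_ae_eq_comp_ae hm he
    refine ⟨c, ?_⟩
    filter_upwards [hc] with p hp
    have hp' : (φ p).1 - p.1 = c := hp
    rw [← hp']
    abel
  obtain ⟨c, hc1⟩ := h1
  -- the second coordinate
  let Φ : M2 → ℂ := fun p => e1 (φ p).2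
  have hΦm : StronglyMeasurable Φ :=
    (continuous_e1.measurable.comp (measurable_snd.comp hφ.measurable)).stronglyMeasurable
  have hΦ1 : ∀ p, ‖Φ p‖ = 1 := fun p => norm_e1 _
  have htw : ∀ m : ℤ, ∀ᵐ x : TT,
      um Φ m (x + aT) = ee (FF b (x + c) - m * FF a x) * um Φ m x := by
    intro m
    refine um_twist (FF a) (fun x => FF b (x + c)) ?_ m
    filter_upwards [hc, hc1] with p hp hp1
    have h2 : (φ (SK (FF a) aT p)).2 = (φ p).2 + ((FF b (φ p).1 : ℝ) : TT) :=
      congrArg Prod.snd hp
    change e1 (φ (SK (FF a) aT p)).2 = ee (FF b (p.1 + c)) * e1 (φ p).2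
    rw [h2, hp1, e1, e1, fourier_add_arg, mul_comm, fourier_eeZ]
    simp
  -- some coefficient does not vanish
  have hm : ∃ m : ℤ, ¬ ∀ᵐ x : TT, um Φ m x = 0 := by
    by_contra hcon
    push Not at hcon
    have h2 : ∀ᵐ x : TT, ∀ m : ℤ, um Φ m x = 0 := ae_all_iff.2 hcon
    have h3 : ∀ᵐ x : TT, False := by
      filter_upwards [h2] with x hx
      have hmx : AEStronglyMeasurable (fun y => Φ (x, y)) (volume : Measure TT) :=
        (hΦm.comp_measurable measurable_prodMk_left).aestronglyMeasurable
      have h4 := zero_of_coeff hmx 1 (Eventually.of_forall fun y => (hΦ1 _).le)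
        (fun m => by rw [← um_eq]; exact hx m)
      have h5 : ∀ᵐ y : TT, False := by
        filter_upwards [h4] with y hy
        have := hΦ1 (x, y)
        rw [hy, norm_zero] at this
        exact zero_ne_one this
      obtain ⟨y, hy⟩ := h5.exists
      exact hy
    obtain ⟨x, hx⟩ := h3.exists
    exact hx
  obtain ⟨m, hm⟩ := hm
  -- the coefficients
  let w : ℕ → ℂ := fun k => (b k : ℂ) * ff k c - ((m * a k : ℝ) : ℂ)
  have hw : ∀ k, ‖w k‖ ≤ 3 / 2 + |(m : ℝ)| * (3 / 2) := by
    intro k
    refine (norm_sub_le _ _).trans (add_le_add ?_ ?_)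
    · rw [norm_mul, norm_ff, mul_one]
      exact hb.norm_le k
    · rw [Complex.norm_real, Real.norm_eq_abs, abs_mul]
      have h2 := ha k
      rw [abs_of_nonneg (by linarith [h2.1] : 0 ≤ a k)]
      exact mul_le_mul_of_nonneg_left h2.2 (abs_nonneg _)
  have hlim : Tendsto w atTop (𝓝 0) := by
    have h3 : ∀ᵐ x : TT, um Φ m (x + aT) = ee (Tr (fun k => w k * DD k) x) * um Φ m x := by
      filter_upwards [htw m] with x hx
      rw [hx]
      congr 2
      unfold FF
      rw [Tr_shift, Tr_mul, Tr_sub (AS_mul_ff hb.AS c)]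
      · congr 1
        funext k
        simp only [w]
        push_cast
        ring
      · have h3 := (ha.AS).mul_left |(m : ℝ)|
        refine h3.congr fun k => ?_
        rw [norm_mul (((m : ℝ) : ℂ)), Complex.norm_real, Real.norm_eq_abs]
    rcases twisted hw (um Φ m) (um_meas hΦm m).aestronglyMeasurable h3 with h2 | h2
    · exact absurd h2 hm
    · exact h2
  have hlim2 : Tendsto (fun k => b k - |(m : ℝ)| * a k) atTop (𝓝 0) := by
    refine squeeze_zero_norm (fun k => ?_) (tendsto_norm_zero.comp hlim)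
    have h2 := abs_norm_sub_norm_le ((b k : ℂ) * ff k c) ((m * a k : ℝ) : ℂ)
    rw [norm_mul, norm_ff, mul_one, Complex.norm_real, Complex.norm_real, Real.norm_eq_abs,
      Real.norm_eq_abs, abs_mul, abs_of_nonneg (by linarith [(ha k).1] : 0 ≤ a k),
      abs_of_nonneg (by linarith [(hb k).1] : 0 ≤ b k)] at h2
    exact h2
  have hm1 : |(m : ℝ)| = 1 := by
    have h0 : m ≠ 0 := by
      rintro rfl
      have h2 : (1 : ℝ) ≤ 0 := by
        refine ge_of_tendsto hlim2 (Eventually.of_forall fun k => ?_)
        simpa using (hb k).1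
      linarith
    have h1 : |m| < 2 := by
      by_contra hcon
      push Not at hcon
      have h3 : (2 : ℝ) ≤ |(m : ℝ)| := by exact_mod_cast hcon
      have h2 : (0 : ℝ) ≤ -(1 / 2) := by
        refine le_of_tendsto hlim2 (Eventually.of_forall fun k => ?_)
        have h4 := (ha k).1
        have h5 := (hb k).2
        nlinarith
      linarith
    have h2 : |m| = 1 := by
      have := Int.one_le_abs h0
      omega
    exact_mod_cast h2
  rw [hm1] at hlim2
  have h3 := hlim2.neg
  rw [neg_zero] at h3
  refine h3.congr fun k => ?_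
  ring

/-- Cohomologous cocycles give isomorphic skew products. -/
theorem iso_of_summable {a b : ℕ → ℝ} (ha : Bd a) (hb : Bd b)
    (h : Summable fun k => |a k - b k|) :
    ∃ φ ψ : M2 → M2, MeasurePreserving φ (volume : Measure M2) volume ∧
      MeasurePreserving ψ (volume : Measure M2) volume ∧
      ψ ∘ φ = id ∧ φ ∘ ψ = id ∧ φ ∘ SK (FF a) aT = SK (FF b) aT ∘ φ := by
  let z : ℕ → ℂ := fun k => ((a k - b k : ℝ) : ℂ)
  have hz : AS z := by
    refine h.congr fun k => ?_
    rw [Complex.norm_real, Real.norm_eq_abs]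
  have hcont := continuous_Tr hz
  have e : ∀ x, FF a x - FF b x = Tr z (x + aT) - Tr z x := by
    intro x
    unfold FF
    rw [Tr_sub ha.AS hb.AS, Tr_shift, Tr_sub (AS_mul_ff hz aT) hz]
    congr 1
    funext k
    simp only [z]
    rw [ff_al]
    push_cast
    ring
  refine ⟨SK (fun x => -Tr z x) 0, SK (fun x => Tr z x) 0, mp_SK hcont.neg 0, mp_SK hcont 0,
    ?_, ?_, ?_⟩
  · funext p
    simp [SK]
  · funext p
    simp [SK]
  · funext p
    refine Prod.ext ?_ ?_
    · simp [SK]
    · simp only [SK, Function.comp, add_zero]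
      rw [add_assoc, add_assoc, ← AddCircle.coe_add, ← AddCircle.coe_add]
      congr 2
      have := e p.1
      linarith

end Pool.Agent.V8H43.SE
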