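import Pool.Agent.V8H43.SE.Vol
import Pool.Agent.V8H43.SE.Cls
import Pool.Agent.H468R2.MA.P_T_BF
import Pool.Agent.H468R2.MA.P_T_C
import Pool.Agent.H468R2.MA.P_T_CH
import Pool.Agent.H468R2.MA.P_T_GEN
import Pool.Agent.H468R2.MA.P_T_LOC
import Pool.Agent.H468R2.MA.P_T_LOC1
import Pool.Agent.H468R2.MA.P_T_SC

/-!
# Measure isomorphism of ergodic smooth diffeomorphisms of the torus does not reduce to isomorphism
of countable structures
-/

set_option autoImplicit false

open Filter Topology MeasureTheory AddCircle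
open scoped ENNReal Manifold ContDiff
open Pool.Agent.H468R2.MA

noncomputable section

namespace Pool.Agent.V8H43.SE

theorem contDiff_FF {a : ℕ → ℝ} (h : Bd a) : ContDiff ℝ ∞ (fun t : ℝ => FF a ((t : ℝ) : TT)) := by
  unfold FF
  refine contDiff_Tr fun s => ?_
  have h1 := (summable_DD s).mul_left (3 / 2)
  refine Summable.of_nonneg_of_le (fun k => by positivity) (fun k => ?_) h1
  rw [norm_mul, mul_assoc]
  exact mul_le_mul_of_nonneg_right (h.norm_le k) (by positivity)

/-- the inverse of the skew product -/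
def SKi (F : TT → ℝ) (s : TT) (p : M2) : M2 := (p.1 - s, p.2 - ((F (p.1 - s) : ℝ) : TT))

theorem SKi_SK (F : TT → ℝ) (s : TT) (p : M2) : SKi F s (SK F s p) = p := by
  simp [SK, SKi]

theorem SK_SKi (F : TT → ℝ) (s : TT) (p : M2) : SK F s (SKi F s p) = p := by
  simp [SK, SKi]

theorem contMDiff_SK {a : ℕ → ℝ} (h : Bd a) : ContMDiff (𝓡 2) (𝓡 2) ∞ (SK (FF a) aT) := by
  refine contMDiff_of_lift _
    (fun x : E2 => WithLp.toLp 2 ![x 0 + al, x 1 + FF a ((x 0 : ℝ) : TT)]) ?_ ?_
  · rw [contDiff_euclidean]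
    intro i
    have h0 : ContDiff ℝ ∞ fun x : E2 => x 0 := contDiff_euclidean.1 contDiff_id 0
    have h1 : ContDiff ℝ ∞ fun x : E2 => x 1 := contDiff_euclidean.1 contDiff_id 1
    fin_cases i
    · exact h0.add contDiff_const
    · exact h1.add ((contDiff_FF h).comp h0)
  · intro x
    refine Prod.ext ?_ ?_
    · simp [toM, SK, aT]
    · simp [toM, SK]

theorem contMDiff_SKi {a : ℕ → ℝ} (h : Bd a) : ContMDiff (𝓡 2) (𝓡 2) ∞ (SKi (FF a) aT) := by
  refine contMDiff_of_lift _
    (fun x : E2 => WithLp.toLp 2 ![x 0 - al, x 1 - FF a ((x 0 - al : ℝ) : TT)]) ?_ ?_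
  · rw [contDiff_euclidean]
    intro i
    have h0 : ContDiff ℝ ∞ fun x : E2 => x 0 := contDiff_euclidean.1 contDiff_id 0
    have h1 : ContDiff ℝ ∞ fun x : E2 => x 1 := contDiff_euclidean.1 contDiff_id 1
    fin_cases i
    · exact h0.sub contDiff_const
    · exact h1.sub ((contDiff_FF h).comp (h0.sub contDiff_const))
  · intro x
    refine Prod.ext ?_ ?_
    · simp [toM, SKi, aT]
    · simp [toM, SKi, aT]

/-- the diffeomorphism -/
def dif {a : ℕ → ℝ} (h : Bd a) : Diffeomorph (𝓡 2) (𝓡 2) M2 M2 ∞ where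
  toFun := SK (FF a) aT
  invFun := SKi (FF a) aT
  left_inv := SKi_SK _ _
  right_inv := SK_SKi _ _
  contMDiff_toFun := contMDiff_SK h
  contMDiff_invFun := contMDiff_SKi h

theorem dif_coe {a : ℕ → ℝ} (h : Bd a) : ⇑(dif h) = SK (FF a) aT := rfl

/-- the ergodic diffeomorphisms -/
abbrev SEs : Type := {T : Diffeomorph (𝓡 2) (𝓡 2) M2 M2 ∞ //
  MeasurePreserving (⇑T) (volume : Measure M2) (volume : Measure M2) ∧
    Ergodic (⇑T) (volume : Measure M2)}

/-- the ergodic diffeomorphism with parameter `a` -/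
def dif' {a : ℕ → ℝ} (h : Bd a) : SEs :=
  ⟨dif h, mp_SK (continuous_FF h) aT, ergodic_SK h⟩

/-- measure isomorphism -/
def MIso (S T : SEs) : Prop :=
  ∃ φ ψ : M2 → M2, MeasurePreserving φ (volume : Measure M2) volume ∧
    MeasurePreserving ψ (volume : Measure M2) volume ∧
    ψ ∘ φ =ᵐ[(volume : Measure M2)] id ∧ φ ∘ ψ =ᵐ[(volume : Measure M2)] id ∧
    φ ∘ (⇑S.1) =ᵐ[(volume : Measure M2)] (⇑T.1) ∘ φ

/-- the parameters -/
def th (x : ℕ → ℝ) (k : ℕ) : ℝ := 1 + (1 - Real.cos (x k)) / 4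

theorem th_Bd (x : ℕ → ℝ) : Bd (th x) := by
  intro k
  unfold th
  have h1 := Real.cos_le_one (x k)
  have h2 := Real.neg_one_le_cos (x k)
  constructor <;> linarith

theorem th_sub (x y : ℕ → ℝ) (k : ℕ) : |th x k - th y k| ≤ |x k - y k| := by
  have h : th x k - th y k = (Real.cos (y k) - Real.cos (x k)) / 4 := by unfold th; ring
  rw [h, abs_div, abs_of_pos (by norm_num : (0 : ℝ) < 4)]
  have h1 := Real.abs_cos_sub_cos_le (y k) (x k)
  rw [abs_sub_comm (y k)] at h1
  have := abs_nonneg (x k - y k)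
  linarith

theorem erg : T_ERG :=
  t_T_ERG (t_T_C t_T_SC (t_T_LOC t_T_SC (t_T_LOC1 t_T_SC))) t_T_CH

theorem meas_FF (p : TT) : Measurable fun x : ℕ → ℝ => FF (th x) p := by
  have hc : Continuous fun x : ℕ → ℝ => FF (th x) p := by
    unfold FF Tr
    refine continuous_tsum (u := fun k => 3 / 2 * ‖DD k‖) (fun k => ?_) ?_ ?_
    · unfold th
      fun_prop
    · have := (summable_DD 0).mul_left (3 / 2)
      simpa using this
    · intro k x
      refine (term_le (fun k => ((th x k : ℝ) : ℂ) * DD k) p k).trans ?_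
      rw [norm_mul]
      exact mul_le_mul_of_nonneg_right ((th_Bd x).norm_le k) (norm_nonneg _)
  exact hc.measurable

/-- There is no Borel reduction of measure isomorphism to isomorphism of countable structures. -/
theorem no_reduction (f : SEs → (ℕ → ℕ → Bool))
    (hf : @Measurable SEs (ℕ → ℕ → Bool)
      (MeasurableSpace.comap (fun T : SEs => (⇑T.1 : M2 → M2))
        (inferInstance : MeasurableSpace (M2 → M2)))
      (inferInstance : MeasurableSpace (ℕ → ℕ → Bool)) f)
    (h : ∀ S T : SEs, MIso S T ↔ ∃ σ : Equiv.Perm ℕ, ∀ i j : ℕ, f S i j = f T (σ i) (σ j)) :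
    False := by
  -- the Borel map into structures
  let F : (ℕ → ℝ) → RS Unit (fun _ => 2) := fun x _ a => f (dif' (th_Bd x)) (a 0) (a 1) = true
  have hmeas : Measurable fun x : ℕ → ℝ => f (dif' (th_Bd x)) := by
    have h1 : @Measurable (ℕ → ℝ) SEs inferInstance
        (MeasurableSpace.comap (fun T : SEs => (⇑T.1 : M2 → M2))
          (inferInstance : MeasurableSpace (M2 → M2))) (fun x : ℕ → ℝ => dif' (th_Bd x)) := by
      rw [measurable_comap_iff]
      rw [measurable_pi_iff]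
      intro p
      change Measurable fun x : ℕ → ℝ => SK (FF (th x)) aT p
      unfold SK
      refine Measurable.prodMk measurable_const ?_
      refine measurable_const.add ?_
      exact (AddCircle.continuous_mk' (1 : ℝ)).measurable.comp (meas_FF p.1)
    exact @Measurable.comp _ _ _ _ (MeasurableSpace.comap (fun T : SEs => (⇑T.1 : M2 → M2))
          (inferInstance : MeasurableSpace (M2 → M2))) _ _ _ hf h1
  have hH : Hm F := by
    constructor
    · intro r a
      have h1 : Measurable fun x : ℕ → ℝ => f (dif' (th_Bd x)) (a 0) (a 1) :=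
        (measurable_pi_iff.1 ((measurable_pi_iff.1 hmeas) (a 0))) (a 1)
      exact h1 (measurableSet_singleton true)
    · intro x y hxy
      have h1 : Summable fun k => |th x k - th y k| :=
        Summable.of_nonneg_of_le (fun _ => abs_nonneg _) (th_sub x y) hxy
      obtain ⟨φ, ψ, h2, h3, h4, h5, h6⟩ := iso_of_summable (th_Bd x) (th_Bd y) h1
      have h7 : MIso (dif' (th_Bd x)) (dif' (th_Bd y)) :=
        ⟨φ, ψ, h2, h3, by rw [h4], by rw [h5],
          by
            have : φ ∘ ⇑(dif' (th_Bd x)).1 = ⇑(dif' (th_Bd y)).1 ∘ φ := h6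
            rw [this]⟩
      obtain ⟨σ, hσ⟩ := (h _ _).1 h7
      refine ⟨σ, fun r a => ?_⟩
      change f (dif' (th_Bd y)) (σ (a 0)) (σ (a 1)) = true ↔ f (dif' (th_Bd x)) (a 0) (a 1) = true
      rw [hσ]
  obtain ⟨C, hC, hiso⟩ := erg Unit (fun _ => 2) F hH
  obtain ⟨x, hx, y, hy, hgen⟩ := t_T_GEN C hC
  obtain ⟨π, hπ⟩ := hiso x hx y hy
  have h1 : MIso (dif' (th_Bd x)) (dif' (th_Bd y)) := by
    refine (h _ _).2 ⟨π, fun i j => ?_⟩
    have h2 := hπ () ![i, j]
    change (f (dif' (th_Bd y)) (π i) (π j) = true ↔ f (dif' (th_Bd x)) i j = true) at h2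
    rw [Bool.eq_iff_iff]
    exact h2.symm
  obtain ⟨φ, ψ, h2, -, -, -, h6⟩ := h1
  have h3 := tendsto_of_factor (th_Bd x) (th_Bd y) φ h2 h6
  rw [Metric.tendsto_atTop] at h3
  obtain ⟨N, hN⟩ := h3 (1 / 4) (by norm_num)
  obtain ⟨k, hk, hkx, hky⟩ := hgen (N + 1)
  have h4 := hN k (by omega)
  rw [Real.dist_eq, sub_zero] at h4
  have hsm : 1 / (((N + 1 : ℕ) : ℝ) + 1) ≤ 1 / 2 := by
    apply one_div_le_one_div_of_le (by norm_num)
    push_cast
    have : (0 : ℝ) ≤ N := Nat.cast_nonneg N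
    linarith
  have hx1 : 1 / 2 ≤ Real.cos (x k) := by
    have h5 := Real.one_sub_sq_div_two_le_cos (x := x k)
    have h7 : (x k) ^ 2 ≤ (1 / 2) ^ 2 := sq_le_sq' (by linarith [(abs_le.1 (hkx.trans hsm)).1])
      (by linarith [(abs_le.1 (hkx.trans hsm)).2])
    linarith
  have hy1 : Real.cos (y k) ≤ -(1 / 2) := by
    have h5 := Real.one_sub_sq_div_two_le_cos (x := y k - Real.pi)
    rw [Real.cos_sub_pi] at h5
    have h7 : (y k - Real.pi) ^ 2 ≤ (1 / 2) ^ 2 :=
      sq_le_sq' (by linarith [(abs_le.1 (hky.trans hsm)).1])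
        (by linarith [(abs_le.1 (hky.trans hsm)).2])
    linarith
  have h8 : th x k - th y k = (Real.cos (y k) - Real.cos (x k)) / 4 := by unfold th; ring
  rw [h8, abs_lt] at h4
  linarith [h4.1]

end Pool.Agent.V8H43.SE
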