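import Pool.Agent.V8H43.SE.Tr

/-!
# Multiplicative coboundaries over the rotation
-/

set_option autoImplicit false

open Filter Topology MeasureTheory
open scoped ENNReal

noncomputable section

namespace Pool.Agent.V8H43.SE

/-- the rotation angle -/
def aT : TT := ((al : ℝ) : TT)

instance instProbTT : IsProbabilityMeasure (volume : Measure TT) :=
  ⟨by rw [AddCircle.measure_univ]; simp⟩

theorem mp_add (s : TT) : MeasurePreserving (fun x : TT => x + s) volume volume :=
  measurePreserving_add_right volume s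

/-- continuity of translations in `L¹` -/
theorem translation_tendsto (g : TT → ℂ) (hg : Integrable g) (s : ℕ → TT)
    (hs : Tendsto s atTop (𝓝 0)) :
    Tendsto (fun k => ∫ x, ‖g (x + s k) - g x‖) atTop (𝓝 0) := by
  have hm : MemLp g 1 (volume : Measure TT) := memLp_one_iff_integrable.2 hg
  have : Fact ((1 : ℝ≥0∞) ≠ ∞) := ⟨ENNReal.one_ne_top⟩
  let f : Lp ℂ 1 (volume : Measure TT) := hm.toLp g
  have h1 : Tendsto (fun k => (DomAddAct.mk (s k)) +ᵥ f) atTop (𝓝 ((DomAddAct.mk (0 : TT)) +ᵥ f)) := by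
    have h2 : Tendsto (fun k => DomAddAct.mk (s k)) atTop (𝓝 (DomAddAct.mk (0 : TT))) :=
      (DomAddAct.continuous_mk.tendsto 0).comp hs
    exact h2.vadd tendsto_const_nhds
  have h0 : (DomAddAct.mk (0 : TT)) +ᵥ f = f := zero_vadd _ f
  rw [h0] at h1
  have h3 := (tendsto_iff_norm_sub_tendsto_zero.1 h1)
  refine h3.congr fun k => ?_
  rw [Lp.norm_def, eLpNorm_one_eq_lintegral_enorm]
  have h4 : (((DomAddAct.mk (s k)) +ᵥ f) - f : Lp ℂ 1 (volume : Measure TT)) =ᵐ[volume]
      fun x => g (x + s k) - g x := by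
    have h5 : (DomAddAct.mk (s k)) +ᵥ f = ((hm.comp_measurePreserving
        (measurePreserving_vadd (s k) (volume : Measure TT))).toLp _) :=
      DomAddAct.mk_vadd_toLp (s k) hm
    rw [h5, ← MemLp.toLp_sub]
    refine (MemLp.coeFn_toLp _).trans ?_
    refine Eventually.of_forall fun x => ?_
    simp [add_comm]
  rw [integral_norm_eq_lintegral_enorm]
  · congr 1
    refine lintegral_congr_ae ?_
    filter_upwards [h4] with x hx
    rw [hx]
  · exact ((hg.comp_add_right (s k)).sub hg).aestronglyMeasurable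


theorem AS_c {c : ℕ → ℂ} {C : ℝ} (hC : ∀ k, ‖c k‖ ≤ C) : AS (fun k => c k * DD k) := by
  have h := (summable_DD 0).mul_left C
  refine Summable.of_nonneg_of_le (fun _ => norm_nonneg _) (fun k => ?_) h
  rw [norm_mul, pow_zero, mul_one]
  exact mul_le_mul_of_nonneg_right (hC k) (norm_nonneg _)

theorem ff_al (k : ℕ) : ff k aT = DD k + 1 := by
  unfold aT DD
  rw [ff_coe]
  ring

theorem AS_mul_ff {z : ℕ → ℂ} (h : AS z) (s : TT) : AS (fun k => z k * ff k s) := by
  unfold AS
  refine h.congr fun k => ?_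
  rw [norm_mul, norm_ff, mul_one]

/-- the Birkhoff sums -/
theorem birkhoff {c : ℕ → ℂ} {C : ℝ} (hC : ∀ k, ‖c k‖ ≤ C) (g : TT → ℂ)
    (h : ∀ᵐ x, g (x + aT) = ee (Tr (fun k => c k * DD k) x) * g x) (n : ℕ) :
    AS (fun k => c k * (ff k (n • aT) - 1)) ∧
      ∀ᵐ x, g (x + n • aT) = ee (Tr (fun k => c k * (ff k (n • aT) - 1)) x) * g x := by
  induction n with
  | zero =>
    constructor
    · unfold AS
      simp only [zero_smul, ff_zero, sub_self, mul_zero, norm_zero]
      exact summable_zero
    · refine Eventually.of_forall fun x => ?_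
      simp [ff_zero, Tr, ee_zero]
  | succ n ih =>
    obtain ⟨ih1, ih2⟩ := ih
    have h1 := AS_mul_ff (AS_c hC) (n • aT)
    have e1 : ∀ k, c k * DD k * ff k (n • aT) + c k * (ff k (n • aT) - 1) =
        c k * (ff k ((n + 1) • aT) - 1) := by
      intro k
      rw [succ_nsmul, ff_add, ff_al]
      ring
    constructor
    · unfold AS
      refine Summable.of_nonneg_of_le (fun _ => norm_nonneg _) (fun k => ?_) (h1.add ih1)
      beta_reduce
      rw [← e1 k]
      exact norm_add_le _ _
    · have h2 := (mp_add (n • aT)).quasiMeasurePreserving.ae h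
      filter_upwards [ih2, h2] with x hx1 hx2
      rw [succ_nsmul, ← add_assoc, hx2, hx1, ← mul_assoc, ← ee_add, Tr_shift, Tr_add h1 ih1]
      congr 3
      funext k
      exact e1 k

theorem ee_sub_le (a b : ℝ) : ‖ee a - ee b‖ ≤ 2 * Real.pi * |a - b| := by
  have h : ee a - ee b = (ee (a - b) - 1) * ee b := by
    rw [sub_mul, ← ee_add, sub_add_cancel, one_mul]
  rw [h, norm_mul, norm_ee, mul_one]
  exact norm_ee_sub_one _

theorem ff_nn (j k : ℕ) : ff j (nn k • aT) = ee (qq j * (nn k * al)) := by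
  unfold aT
  rw [← AddCircle.coe_nsmul, ff_coe, nsmul_eq_mul]

/-- at the resonant times the Birkhoff sum is a single mode up to a small error -/
theorem resonant {c : ℕ → ℂ} {C : ℝ} (hC : ∀ k, ‖c k‖ ≤ C) (k : ℕ)
    (hA : AS (fun j => c j * (ff j (nn k • aT) - 1))) (x : TT) :
    |Tr (fun j => c j * (ff j (nn k • aT) - 1)) x - (-2 * c k * ff k x).re| ≤
      C * (2 * Real.pi) * 2 * (1 / 2) ^ k := by
  classical
  have hC0 : 0 ≤ C := (norm_nonneg _).trans (hC 0)
  let w : ℕ → ℂ := fun j => if j = k then -2 * c k else 0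
  have hw : AS w := by
    refine summable_of_ne_finset_zero (s := {k}) fun j hj => ?_
    have : j ≠ k := by simpa using hj
    simp [w, this]
  have hTw : Tr w x = (-2 * c k * ff k x).re := by
    unfold Tr
    rw [tsum_eq_single k]
    · simp [w]
    · intro j hj
      simp [w, hj]
  rw [← hTw, Tr_sub hA hw]
  have hb : ∀ j, ‖c j * (ff j (nn k • aT) - 1) - w j‖ ≤ C * (2 * Real.pi) * (1 / 2) ^ k * (1 / 2) ^ j := by
    intro j
    rw [ff_nn]
    have e : C * (2 * Real.pi) * (1 / 2) ^ k * (1 / 2) ^ j = C * (2 * Real.pi * (1 / 2) ^ (j + k)) := by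
      rw [pow_add]; ring
    rw [e]
    rcases lt_trichotomy j k with h | h | h
    · simp only [w, if_neg h.ne, sub_zero]
      rw [norm_mul]
      exact mul_le_mul (hC j) (res_lt h) (norm_nonneg _) hC0
    · subst h
      have e2 : c j * (ee (qq j * (nn j * al)) - 1) - w j = c j * (ee (qq j * (nn j * al)) + 1) := by
        simp only [w, if_true]; ring
      rw [e2, norm_mul]
      exact mul_le_mul (hC j) (res_eq j) (norm_nonneg _) hC0
    · simp only [w, if_neg h.ne', sub_zero]
      rw [norm_mul]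
      exact mul_le_mul (hC j) (res_gt h) (norm_nonneg _) hC0
  have hg : HasSum (fun j : ℕ => C * (2 * Real.pi) * (1 / 2) ^ k * (1 / 2 : ℝ) ^ j)
      (C * (2 * Real.pi) * (1 / 2) ^ k * 2) := hasSum_geometric_two.mul_left _
  have hs : AS (fun j => c j * (ff j (nn k • aT) - 1) - w j) :=
    Summable.of_nonneg_of_le (fun _ => norm_nonneg _) hb hg.summable
  refine (abs_Tr_le hs x).trans ?_
  refine (hasSum_le hb hs.hasSum hg).trans (le_of_eq (by ring))

/-- the times are small -/
theorem nn_tendsto : Tendsto (fun k => nn k • aT) atTop (𝓝 (0 : TT)) := by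
  choose m hm using nn_small
  have h1 : Tendsto (fun k => (nn k : ℝ) * al - m k) atTop (𝓝 0) := by
    refine squeeze_zero_norm (fun k => ?_) (tendsto_pow_atTop_nhds_zero_of_lt_one
      (by norm_num : (0 : ℝ) ≤ 1 / 2) (by norm_num))
    rw [Real.norm_eq_abs]
    exact hm k
  have h2 : Tendsto (fun k => (((nn k : ℝ) * al - m k : ℝ) : TT)) atTop (𝓝 ((0 : ℝ) : TT)) :=
    ((AddCircle.continuous_mk' (1 : ℝ)).tendsto 0).comp h1
  have h3 : ((0 : ℝ) : TT) = 0 := by simp
  rw [h3] at h2
  refine h2.congr fun k => ?_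
  unfold aT
  rw [AddCircle.coe_sub, ← nsmul_eq_mul, AddCircle.coe_nsmul]
  have : (((m k : ℕ) : ℝ) : TT) = 0 := by
    have h4 : (((m k : ℕ) : ℝ)) = (m k) • (1 : ℝ) := by simp
    rw [h4, AddCircle.coe_nsmul, AddCircle.coe_period, smul_zero]
  rw [this, sub_zero]

/-- the first character -/
def e1 (x : TT) : ℂ := fourier 1 x

theorem continuous_e1 : Continuous e1 := (fourier 1).continuous

theorem norm_e1 (x : TT) : ‖e1 x‖ = 1 := by
  unfold e1
  rw [fourier_apply]
  exact Circle.norm_coe _

theorem e1_coe (t : ℝ) : e1 ((t : ℝ) : TT) = ee t := by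
  have h := fourier_ee 1 t
  simpa [e1] using h

theorem ff_eq (k : ℕ) (x : TT) : ff k x = e1 (qq k • x) := by
  unfold ff e1
  rw [fourier_apply, fourier_apply, one_zsmul, natCast_zsmul]

/-- the distance of a single mode from the integers -/
def Psi (c : ℂ) : ℝ := ∫ x : TT, ‖ee (-2 * c * e1 x).re - 1‖

theorem Psi_ff (c : ℂ) (k : ℕ) : ∫ x : TT, ‖ee (-2 * c * ff k x).re - 1‖ = Psi c := by
  have h1 : MeasurePreserving (fun x : TT => qq k • x) volume volume :=
    (AddCircle.ergodic_nsmul (T := (1 : ℝ)) (n := qq k) (qq_two k)).toMeasurePreserving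
  have h2 : Continuous fun x : TT => ‖ee (-2 * c * e1 x).re - 1‖ := by
    have := continuous_e1
    have h3 := continuous_ee
    fun_prop
  unfold Psi
  simp only [ff_eq]
  have h4 := integral_map (μ := (volume : Measure TT)) (φ := fun x : TT => qq k • x)
    h1.measurable.aemeasurable (f := fun x : TT => ‖ee (-2 * c * e1 x).re - 1‖)
    h2.aestronglyMeasurable
  rw [h1.map_eq] at h4
  exact h4.symm

theorem continuous_Psi : Continuous Psi := by
  unfold Psi
  refine continuous_of_dominated (F := fun c x => ‖ee (-2 * c * e1 x).re - 1‖)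
    (bound := fun _ => 2) ?_ ?_ ?_ ?_
  · intro c
    have := continuous_e1
    have h3 := continuous_ee
    exact (by fun_prop : Continuous fun x : TT => ‖ee (-2 * c * e1 x).re - 1‖).aestronglyMeasurable
  · intro c
    refine Eventually.of_forall fun x => ?_
    rw [norm_norm]
    calc ‖ee (-2 * c * e1 x).re - 1‖ ≤ ‖ee (-2 * c * e1 x).re‖ + ‖(1 : ℂ)‖ := norm_sub_le _ _
      _ = 2 := by rw [norm_ee, norm_one]; norm_num
  · exact integrable_const _
  · refine Eventually.of_forall fun x => ?_
    have h3 := continuous_ee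
    fun_prop

theorem ee_eq_one {t : ℝ} (h : ee t = 1) : ∃ n : ℤ, t = n := by
  unfold ee at h
  rw [Complex.exp_eq_one_iff] at h
  obtain ⟨n, hn⟩ := h
  refine ⟨n, ?_⟩
  have h1 : (2 * Real.pi * Complex.I : ℂ) ≠ 0 := Complex.two_pi_I_ne_zero
  have h2 : (2 * Real.pi * Complex.I : ℂ) * (t : ℂ) = (2 * Real.pi * Complex.I : ℂ) * (n : ℂ) := by
    rw [hn]; ring
  have h3 := mul_left_cancel₀ h1 h2
  exact_mod_cast h3

theorem Psi_eq_zero {c : ℂ} (h : Psi c = 0) : c = 0 := by
  have h3 := continuous_ee
  have h4 := continuous_e1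
  have hcont : Continuous fun x : TT => ‖ee (-2 * c * e1 x).re - 1‖ := by fun_prop
  unfold Psi at h
  have h1 : (fun x : TT => ‖ee (-2 * c * e1 x).re - 1‖) = 0 := by
    have h5 := (integral_eq_zero_iff_of_nonneg (fun x : TT => norm_nonneg _)
      (hcont.integrable_of_hasCompactSupport (HasCompactSupport.of_compactSpace _))).1 h
    exact (hcont.ae_eq_iff_eq volume continuous_zero).1 h5
  have h2 : ∀ t : ℝ, ∃ n : ℤ, (-2 * c * ee t).re = n := by
    intro t
    have h5 := congrFun h1 ((t : ℝ) : TT)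
    simp only [Pi.zero_apply, norm_eq_zero, sub_eq_zero, e1_coe] at h5
    exact ee_eq_one h5
  -- the function is constant
  have h6 : ∀ s t : ℝ, (-2 * c * ee s).re = (-2 * c * ee t).re := by
    choose n hn using h2
    have hc : Continuous fun t : ℝ => (-2 * c * ee t).re := by fun_prop
    have hc2 : Continuous n := by
      have h7 : Continuous fun t : ℝ => ((n t : ℤ) : ℝ) := by
        simpa only [hn] using hc
      exact Int.isClosedEmbedding_coe_real.isEmbedding.continuous_iff.2 h7
    intro s t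
    rw [hn, hn, PreconnectedSpace.constant inferInstance hc2 (x := s) (y := t)]
  have e0 : ee 0 = 1 := ee_zero
  have e2 : ee (1 / 2) = -1 := by
    have := ee_half 0
    simpa using this
  have e4 : ee (1 / 4) = Complex.I := by
    unfold ee
    refine Eq.trans ?_ Complex.exp_pi_div_two_mul_I
    congr 1
    push_cast
    ring
  have e5 : ee (-(1 / 4)) = -Complex.I := by
    have h8 := ee_neg (1 / 4)
    rw [e4] at h8
    have h9 : ee (-(1 / 4)) * Complex.I * Complex.I = Complex.I := by rw [h8, one_mul]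
    rw [mul_assoc, Complex.I_mul_I] at h9
    linear_combination -h9
  have r1 := h6 0 (1 / 2)
  have r2 := h6 (1 / 4) (-(1 / 4))
  rw [e0, e2] at r1
  rw [e4, e5] at r2
  apply Complex.ext
  · simp at r1 ⊢
    linarith
  · simp at r2 ⊢
    linarith

/-- If the exponential of a lacunary series with small divisors is a multiplicative coboundary,
then its coefficients tend to `0`. -/
theorem cob_tendsto {c : ℕ → ℂ} {C : ℝ} (hC : ∀ k, ‖c k‖ ≤ C) (g : TT → ℂ)
    (hg : AEStronglyMeasurable g volume) (hg1 : ∀ᵐ x, ‖g x‖ = 1)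
    (h : ∀ᵐ x, g (x + aT) = ee (Tr (fun k => c k * DD k) x) * g x) :
    Tendsto c atTop (𝓝 0) := by
  have hgi : Integrable g := by
    refine Integrable.of_bound hg 1 ?_
    filter_upwards [hg1] with x hx
    rw [hx]
  have h1 := translation_tendsto g hgi _ nn_tendsto
  have h2 : ∀ k, Psi (c k) ≤ (∫ x, ‖g (x + nn k • aT) - g x‖) +
      2 * Real.pi * (C * (2 * Real.pi) * 2 * (1 / 2) ^ k) := by
    intro k
    obtain ⟨hA, hB⟩ := birkhoff hC g h (nn k)
    have hcont : Continuous fun x : TT => ‖ee (-2 * c k * ff k x).re - 1‖ := by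
      have h3 := continuous_ee
      have h4 := continuous_ff k
      fun_prop
    rw [← Psi_ff (c k) k]
    have h5 : ∫ x : TT, ‖ee (-2 * c k * ff k x).re - 1‖ ≤
        ∫ x : TT, (‖g (x + nn k • aT) - g x‖ +
          2 * Real.pi * (C * (2 * Real.pi) * 2 * (1 / 2) ^ k)) := by
      refine integral_mono_ae (hcont.integrable_of_hasCompactSupport
        (HasCompactSupport.of_compactSpace _)) ?_ ?_
      · exact (((hgi.comp_add_right (nn k • aT)).sub hgi).norm).add (integrable_const _)
      · filter_upwards [hB, hg1] with x hx hgx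
        rw [hx]
        have h6 : ‖ee (Tr (fun j => c j * (ff j (nn k • aT) - 1)) x) * g x - g x‖ =
            ‖ee (Tr (fun j => c j * (ff j (nn k • aT) - 1)) x) - 1‖ := by
          rw [show ee (Tr (fun j => c j * (ff j (nn k • aT) - 1)) x) * g x - g x =
            (ee (Tr (fun j => c j * (ff j (nn k • aT) - 1)) x) - 1) * g x by ring, norm_mul, hgx,
            mul_one]
        rw [h6]
        have h7 := ee_sub_le (-2 * c k * ff k x).re (Tr (fun j => c j * (ff j (nn k • aT) - 1)) x)
        have h8 := resonant hC k hA x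
        rw [abs_sub_comm] at h8
        have h9 : 2 * Real.pi * |(-2 * c k * ff k x).re -
            Tr (fun j => c j * (ff j (nn k • aT) - 1)) x| ≤
            2 * Real.pi * (C * (2 * Real.pi) * 2 * (1 / 2) ^ k) :=
          mul_le_mul_of_nonneg_left h8 Real.two_pi_pos.le
        calc ‖ee (-2 * c k * ff k x).re - 1‖ =
            ‖(ee (Tr (fun j => c j * (ff j (nn k • aT) - 1)) x) - 1) +
              (ee (-2 * c k * ff k x).re -
                ee (Tr (fun j => c j * (ff j (nn k • aT) - 1)) x))‖ := by congr 1; ring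
          _ ≤ _ := (norm_add_le _ _).trans (add_le_add le_rfl (h7.trans h9))
    refine h5.trans (le_of_eq ?_)
    have h6 := integral_add (((hgi.comp_add_right (nn k • aT)).sub hgi).norm)
      (integrable_const (μ := (volume : Measure TT))
        (2 * Real.pi * (C * (2 * Real.pi) * 2 * (1 / 2) ^ k)))
    refine h6.trans ?_
    rw [integral_const]
    simp
  have h3 : Tendsto (fun k => Psi (c k)) atTop (𝓝 0) := by
    have h4 : Tendsto (fun k : ℕ => 2 * Real.pi * (C * (2 * Real.pi) * 2 * (1 / 2 : ℝ) ^ k)) atTop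
        (𝓝 0) := by
      have := (tendsto_pow_atTop_nhds_zero_of_lt_one (by norm_num : (0 : ℝ) ≤ 1 / 2)
        (by norm_num)).const_mul (C * (2 * Real.pi) * 2)
      have h5 := this.const_mul (2 * Real.pi)
      simpa using h5
    have h5 := h1.add h4
    rw [add_zero] at h5
    exact squeeze_zero (fun k => integral_nonneg fun _ => norm_nonneg _) h2 h5
  -- compactness
  rw [Metric.tendsto_atTop]
  intro ε hε
  let K : Set ℂ := Metric.closedBall 0 C \ Metric.ball 0 ε
  have hK : IsCompact K := (isCompact_closedBall 0 C).diff Metric.isOpen_ball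
  by_cases hne : K.Nonempty
  · obtain ⟨z, hz, hmin⟩ := hK.exists_isMinOn hne continuous_Psi.continuousOn
    have hz0 : z ≠ 0 := by
      rintro rfl
      exact hz.2 (Metric.mem_ball_self hε)
    have hpos : 0 < Psi z := by
      rcases (integral_nonneg fun _ => norm_nonneg _ : 0 ≤ Psi z).eq_or_lt with h6 | h6
      · exact absurd (Psi_eq_zero h6.symm) hz0
      · exact h6
    obtain ⟨N, hN⟩ := (Metric.tendsto_atTop.1 h3) (Psi z) hpos
    refine ⟨N, fun k hk => ?_⟩
    by_contra hcon
    have hmem : c k ∈ K := by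
      refine ⟨by simpa using hC k, fun h7 => hcon h7⟩
    have h8 := hN k hk
    rw [Real.dist_eq, sub_zero] at h8
    exact absurd ((le_abs_self _).trans_lt h8) (not_lt.2 (hmin hmem))
  · refine ⟨0, fun k _ => ?_⟩
    by_contra hcon
    exact hne ⟨c k, by simpa using hC k, fun h7 => hcon h7⟩

end Pool.Agent.V8H43.SE
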