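import Pool.Agent.V8H43.SE.Four

/-!
# The skew products
-/

set_option autoImplicit false

open Filter Topology MeasureTheory AddCircle
open scoped ENNReal

noncomputable section

namespace Pool.Agent.V8H43.SE

/-- admissible parameters -/
def Bd (a : ℕ → ℝ) : Prop := ∀ k, 1 ≤ a k ∧ a k ≤ 3 / 2

/-- the cocycle -/
def FF (a : ℕ → ℝ) (x : TT) : ℝ := Tr (fun k => (a k : ℂ) * DD k) x

theorem Bd.norm_le {a : ℕ → ℝ} (h : Bd a) (k : ℕ) : ‖(a k : ℂ)‖ ≤ 3 / 2 := by
  rw [Complex.norm_real, Real.norm_of_nonneg (by linarith [(h k).1])]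
  exact (h k).2

theorem Bd.AS {a : ℕ → ℝ} (h : Bd a) : AS (fun k => (a k : ℂ) * DD k) := AS_c h.norm_le

theorem continuous_FF {a : ℕ → ℝ} (h : Bd a) : Continuous (FF a) := continuous_Tr h.AS

/-- the skew product -/
def SK (F : TT → ℝ) (s : TT) (p : M2) : M2 := (p.1 + s, p.2 + ((F p.1 : ℝ) : TT))

theorem mp_SK {F : TT → ℝ} (hF : Continuous F) (s : TT) :
    MeasurePreserving (SK F s) (volume : Measure M2) volume := by
  unfold SK
  refine MeasurePreserving.skew_product (g := fun x y => y + ((F x : ℝ) : TT)) (mp_add s) ?_ ?_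
  · have h : Continuous (Function.uncurry fun (x y : TT) => y + ((F x : ℝ) : TT)) := by
      have h1 := AddCircle.continuous_mk' (1 : ℝ)
      exact continuous_snd.add (h1.comp (hF.comp continuous_fst))
    exact h.measurable
  · exact Eventually.of_forall fun x => (mp_add _).map_eq

/-- ergodicity -/
theorem ergodic_SK {a : ℕ → ℝ} (h : Bd a) : Ergodic (SK (FF a) aT) (volume : Measure M2) := by
  refine ⟨mp_SK (continuous_FF h) aT, ⟨?_⟩⟩
  intro s hs hinv
  -- the indicator function
  let Φ : M2 → ℂ := s.indicator fun _ => 1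
  have hΦm : StronglyMeasurable Φ := stronglyMeasurable_const.indicator hs
  have hΦb : ∀ p, ‖Φ p‖ ≤ 1 := by
    intro p
    by_cases hp : p ∈ s
    · simp [Φ, hp]
    · simp [Φ, hp]
  have hΦi : ∀ p, Φ (SK (FF a) aT p) = Φ p := by
    intro p
    have h1 : SK (FF a) aT p ∈ s ↔ p ∈ s := by
      have : p ∈ SK (FF a) aT ⁻¹' s ↔ p ∈ s := by rw [hinv]
      exact this
    by_cases hp : p ∈ s
    · simp [Φ, hp, h1.2 hp]
    · simp [Φ, hp, (not_congr h1).2 hp]
  have htw : ∀ m : ℤ, ∀ᵐ x : TT, um Φ m (x + aT) = ee (0 - m * FF a x) * um Φ m x := by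
    intro m
    refine um_twist (FF a) (fun _ => 0) ?_ m
    refine Eventually.of_forall fun p => ?_
    rw [ee_zero, one_mul]
    exact hΦi p
  have hz : ∀ m : ℤ, m ≠ 0 → ∀ᵐ x : TT, um Φ m x = 0 := by
    intro m hm
    have hb : ∀ k, ‖((-m * a k : ℝ) : ℂ)‖ ≤ |(m : ℝ)| * (3 / 2) := by
      intro k
      rw [Complex.norm_real, Real.norm_eq_abs, neg_mul, abs_neg, abs_mul]
      have h2 := h k
      rw [abs_of_nonneg (by linarith [h2.1] : 0 ≤ a k)]
      exact mul_le_mul_of_nonneg_left h2.2 (abs_nonneg _)
    have h3 := twisted (c := fun k => ((-m * a k : ℝ) : ℂ)) hb (um Φ m)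
      (um_meas hΦm m).aestronglyMeasurable ?_
    · rcases h3 with h3 | h3
      · exact h3
      · exfalso
        have h4 := h3.norm
        rw [norm_zero] at h4
        have h5 : (1 : ℝ) ≤ 0 := by
          refine ge_of_tendsto h4 (Eventually.of_forall fun k => ?_)
          rw [Complex.norm_real, Real.norm_eq_abs, neg_mul, abs_neg, abs_mul]
          have h6 := h k
          rw [abs_of_nonneg (by linarith [h6.1] : 0 ≤ a k)]
          have h7 : (1 : ℝ) ≤ |(m : ℝ)| := by
            have : (1 : ℤ) ≤ |m| := Int.one_le_abs hm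
            exact_mod_cast this
          nlinarith [h6.1]
        linarith
    · filter_upwards [htw m] with x hx
      rw [hx]
      congr 2
      unfold FF
      rw [zero_sub, ← neg_mul, Tr_mul]
      congr 1
      funext k
      push_cast
      ring
  have hc : ∃ c : ℂ, ∀ᵐ x : TT, um Φ 0 x = c := by
    have h1 : um Φ 0 ∘ (fun x : TT => x + aT) =ᵐ[volume] um Φ 0 := by
      filter_upwards [htw 0] with x hx
      simp only [Function.comp]
      rw [hx]
      simp [ee_zero]
    obtain ⟨c, hc⟩ := ergodic_rot.ae_eq_const_of_ae_eq_comp_ae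
      (um_meas hΦm 0).aestronglyMeasurable h1
    exact ⟨c, hc⟩
  obtain ⟨c, hc⟩ := hc
  -- the indicator function is almost everywhere constant
  have hconst : ∀ᵐ x : TT, ∀ᵐ y : TT, Φ (x, y) = c := by
    have hz' : ∀ᵐ x : TT, ∀ m : ℤ, m ≠ 0 → um Φ m x = 0 := by
      rw [ae_all_iff]
      intro m
      by_cases hm : m = 0
      · exact Eventually.of_forall fun x h => absurd hm h
      · filter_upwards [hz m hm] with x hx _
        exact hx
    filter_upwards [hz', hc] with x hx1 hx2
    have hmx : AEStronglyMeasurable (fun y => Φ (x, y)) (volume : Measure TT) :=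
      (hΦm.comp_measurable measurable_prodMk_left).aestronglyMeasurable
    have h1 := zero_of_coeff (f := fun y => Φ (x, y) - c) (hmx.sub aestronglyMeasurable_const)
      (1 + ‖c‖) (Eventually.of_forall fun y => (norm_sub_le _ _).trans
        (add_le_add (hΦb _) le_rfl)) ?_
    · filter_upwards [h1] with y hy
      exact sub_eq_zero.1 hy
    · intro m
      have hi1 : Integrable (fun y => Φ (x, y)) (haarAddCircle : Measure TT) := by
        rw [haar_eq]
        exact Integrable.of_bound hmx 1 (Eventually.of_forall fun y => hΦb _)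
      have hi2 : Integrable (fun y : TT => (-c) * fourier 0 y) (haarAddCircle : Measure TT) := by
        simp
      have h2 : (fun y => Φ (x, y) - c) = (fun y => Φ (x, y)) + fun y : TT => (-c) * fourier 0 y := by
        funext y
        simp [sub_eq_add_neg]
      rw [h2, fourierCoeff.add hi1 hi2, Pi.add_apply, fourierCoeff.const_mul, fourierCoeff_fourier,
        ← um_eq]
      by_cases hm : m = 0
      · subst hm
        rw [hx2]
        simp
      · rw [hx1 m hm]
        simp [Pi.single_apply, hm]
  have hconst2 : ∀ᵐ p : M2, Φ p = c := by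
    have hms : MeasurableSet {p : M2 | Φ p = c} :=
      measurableSet_eq_fun hΦm.measurable measurable_const
    exact (Measure.ae_prod_iff_ae_ae hms).2 hconst
  rw [eventuallyConst_set']
  by_cases h1 : c = 1
  · right
    filter_upwards [hconst2] with p hp
    have : p ∈ s := by
      by_contra hcon
      have : Φ p = 0 := by simp [Φ, hcon]
      rw [this, h1] at hp
      exact zero_ne_one hp
    exact eq_true this
  · left
    filter_upwards [hconst2] with p hp
    have : p ∉ s := by
      intro hcon
      have : Φ p = 1 := by simp [Φ, hcon]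
      rw [this] at hp
      exact h1 hp.symm
    exact eq_false this

end Pool.Agent.V8H43.SE
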