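import Pool.Agent.V8H43.SE.Cob

/-!
# Fourier coefficients along the second coordinate
-/

set_option autoImplicit false

open Filter Topology MeasureTheory AddCircle
open scoped ENNReal

noncomputable section

namespace Pool.Agent.V8H43.SE

theorem haar_eq : (haarAddCircle : Measure TT) = volume := by
  have h := AddCircle.volume_eq_smul_haarAddCircle (T := (1 : ℝ))
  rw [ENNReal.ofReal_one, one_smul] at h
  exact h.symm

/-- the number `al` is irrational -/
theorem aT_order : addOrderOf aT = 0 := by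
  rw [addOrderOf_eq_zero_iff']
  intro n hn h0
  unfold aT at h0
  rw [← AddCircle.coe_nsmul, AddCircle.coe_eq_zero_iff] at h0
  obtain ⟨z, hz⟩ := h0
  rw [nsmul_eq_mul, zsmul_eq_mul, mul_one] at hz
  -- a large index
  have hq := qqr_pos n
  have hu := uur_pos n
  have hnq : (n : ℝ) < uu n * qq n := by
    have h1 : n < 2 ^ n := Nat.lt_two_pow_self
    have h2 : 2 ^ n ≤ 2 ^ (n + 3) := Nat.pow_le_pow_right (by norm_num) (by omega)
    have h3 := qq_ge n
    have h4 := uu_pos n
    have h5 : n < uu n * qq n := by nlinarith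
    exact_mod_cast h5
  have e1 : ((qq n : ℤ) * z - n * PP n : ℤ) = (n : ℝ) * qq n * RR n := by
    push_cast
    rw [hz, al_eq n]
    field_simp
    ring
  have hpos : 0 < (n : ℝ) * qq n * RR n := by
    have := RR_pos n
    have hn' : (0 : ℝ) < n := by exact_mod_cast hn
    positivity
  have hlt : (n : ℝ) * qq n * RR n < 1 := by
    calc (n : ℝ) * qq n * RR n ≤ n * qq n * (1 / (uu n * qq n * qq n : ℝ)) :=
          mul_le_mul_of_nonneg_left (RR_le' n) (by positivity)
      _ = n / (uu n * qq n) := by field_simp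
      _ < 1 := by rw [div_lt_one (by positivity)]; exact hnq
  rw [← e1] at hpos hlt
  have h6 : 0 < ((qq n : ℤ) * z - n * PP n : ℤ) := by exact_mod_cast hpos
  have h7 : ((qq n : ℤ) * z - n * PP n : ℤ) < 1 := by exact_mod_cast hlt
  omega

theorem ergodic_rot : Ergodic (fun x : TT => x + aT) volume := by
  have h := (AddCircle.ergodic_add_right (p := (1 : ℝ)) (a := aT)).2 aT_order
  exact h

/-- solutions of the twisted equation -/
theorem twisted {c : ℕ → ℂ} {C : ℝ} (hC : ∀ k, ‖c k‖ ≤ C) (u : TT → ℂ)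
    (hu : AEStronglyMeasurable u volume)
    (h : ∀ᵐ x, u (x + aT) = ee (Tr (fun k => c k * DD k) x) * u x) :
    (∀ᵐ x, u x = 0) ∨ Tendsto c atTop (𝓝 0) := by
  have h1 : (fun x => ‖u x‖) ∘ (fun x : TT => x + aT) =ᵐ[volume] fun x => ‖u x‖ := by
    filter_upwards [h] with x hx
    simp only [Function.comp]
    rw [hx, norm_mul, norm_ee, one_mul]
  obtain ⟨r, hr⟩ := ergodic_rot.ae_eq_const_of_ae_eq_comp_ae hu.norm h1
  by_cases h0 : r = 0
  · left
    filter_upwards [hr] with x hx
    rw [h0] at hx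
    simpa using hx
  · right
    refine cob_tendsto hC (fun x => (r : ℂ)⁻¹ * u x) (aestronglyMeasurable_const.mul hu) ?_ ?_
    · filter_upwards [hr] with x hx
      have hx' : ‖u x‖ = r := hx
      have hr0 : 0 ≤ r := hx' ▸ norm_nonneg _
      rw [norm_mul, hx', norm_inv, Complex.norm_real, Real.norm_of_nonneg hr0]
      exact inv_mul_cancel₀ h0
    · filter_upwards [h] with x hx
      rw [hx]
      ring

/-- the Fourier coefficients in the second variable -/
def um (Φ : M2 → ℂ) (m : ℤ) (x : TT) : ℂ := ∫ y : TT, fourier (-m) y * Φ (x, y)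

theorem um_eq (Φ : M2 → ℂ) (m : ℤ) (x : TT) : um Φ m x = fourierCoeff (fun y => Φ (x, y)) m := by
  unfold um fourierCoeff
  rw [haar_eq]
  rfl

theorem um_meas {Φ : M2 → ℂ} (hΦ : StronglyMeasurable Φ) (m : ℤ) : StronglyMeasurable (um Φ m) := by
  unfold um
  refine StronglyMeasurable.integral_prod_right (f := fun x y => fourier (-m) y * Φ (x, y)) ?_
  refine StronglyMeasurable.mul ?_ hΦ
  exact ((fourier (-m)).continuous.comp continuous_snd).stronglyMeasurable

/-- a bounded function whose Fourier coefficients vanish is zero -/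
theorem zero_of_coeff {f : TT → ℂ} (hf : AEStronglyMeasurable f volume) (C : ℝ)
    (hb : ∀ᵐ x, ‖f x‖ ≤ C) (h : ∀ m : ℤ, fourierCoeff f m = 0) : ∀ᵐ x, f x = 0 := by
  have hm : MemLp f 2 (haarAddCircle : Measure TT) := by
    rw [haar_eq]
    exact MemLp.of_bound hf C hb
  have h1 : fourierBasis.repr (hm.toLp f) = 0 := by
    ext i
    rw [fourierBasis_repr]
    have h2 : fourierCoeff (hm.toLp f) i = fourierCoeff f i :=
      congrFun (fourierCoeff_congr_ae (MemLp.coeFn_toLp hm)) i
    rw [h2, h i]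
    rfl
  have h2 : hm.toLp f = 0 := by
    have := fourierBasis.repr.injective (a₁ := hm.toLp f) (a₂ := 0) (by rw [h1, map_zero])
    exact this
  have h3 := MemLp.coeFn_toLp hm
  rw [h2] at h3
  have h4 := Lp.coeFn_zero ℂ 2 (haarAddCircle : Measure TT)
  rw [haar_eq] at h3 h4
  filter_upwards [h3, h4] with x h5 h6
  rw [← h5, h6]
  rfl

theorem fourier_eeZ (n : ℤ) (t : ℝ) : fourier n ((t : ℝ) : TT) = ee (n * t) := by
  rw [fourier_coe_apply]
  unfold ee
  congr 1
  push_cast
  ring

theorem fourier_add_arg (n : ℤ) (x y : TT) : fourier n (x + y) = fourier n x * fourier n y := by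
  rw [fourier_apply, fourier_apply, fourier_apply, smul_add, AddCircle.toCircle_add, Circle.coe_mul]

/-- twisting of the Fourier coefficients -/
theorem um_twist {Φ : M2 → ℂ} (F G : TT → ℝ)
    (h : ∀ᵐ p ∂(volume : Measure M2), Φ (p.1 + aT, p.2 + ((F p.1 : ℝ) : TT)) = ee (G p.1) * Φ p)
    (m : ℤ) : ∀ᵐ x : TT, um Φ m (x + aT) = ee (G x - m * F x) * um Φ m x := by
  have h1 : ∀ᵐ x : TT, ∀ᵐ y : TT, Φ (x + aT, y + ((F x : ℝ) : TT)) = ee (G x) * Φ (x, y) :=
    Measure.ae_ae_of_ae_prod h
  filter_upwards [h1] with x hx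
  unfold um
  rw [← integral_add_right_eq_self _ ((F x : ℝ) : TT), ← integral_const_mul]
  refine integral_congr_ae ?_
  filter_upwards [hx] with y hy
  rw [hy, fourier_add_arg, fourier_eeZ]
  have e : ee (G x - m * F x) = ee (G x) * ee (((-m : ℤ) : ℝ) * F x) := by
    rw [← ee_add]
    congr 1
    push_cast
    ring
  rw [e]
  ring

end Pool.Agent.V8H43.SE
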