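import Mathlib

/-!
# The torus `(ℝ/ℤ)²` as a smooth surface with its Haar measure
-/

set_option autoImplicit false

open scoped Manifold ContDiff Topology
open Metric Set MeasureTheory

noncomputable section

namespace Pool.Agent.V8H43.SE

/-- the plane -/
abbrev E2 : Type := EuclideanSpace ℝ (Fin 2)

/-- the circle -/
abbrev TT : Type := AddCircle (1 : ℝ)

/-- the torus -/
abbrev M2 : Type := TT × TT

/-- The plane as a product. -/
def hE : E2 ≃ₜ ℝ × ℝ :=
  (PiLp.homeomorph 2 (fun _ : Fin 2 => ℝ)).trans (Homeomorph.finTwoArrow (X := ℝ))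

theorem hE_apply (x : E2) : hE x = (x 0, x 1) := rfl

/-- The projection `E2 → M2`. -/
def toM (x : E2) : M2 := (((x 0 : ℝ) : TT), ((x 1 : ℝ) : TT))

/-- The restriction of the projection to the open square of side `1` centred at `a`. -/
def cube (a : E2) : OpenPartialHomeomorph E2 M2 :=
  hE.toOpenPartialHomeomorph.trans
    ((AddCircle.openPartialHomeomorphCoe (1 : ℝ) (a 0 - 1 / 2)).prod
      (AddCircle.openPartialHomeomorphCoe (1 : ℝ) (a 1 - 1 / 2)))

/-- A lift of a point of the torus to the plane. -/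
def liftM (p : M2) : E2 := WithLp.toLp 2 ![((AddCircle.equivIco (1 : ℝ) 0 p.1 : ℝ)),
  ((AddCircle.equivIco (1 : ℝ) 0 p.2 : ℝ))]

theorem toM_liftM (p : M2) : toM (liftM p) = p := by
  refine Prod.ext ?_ ?_
  · exact (AddCircle.equivIco (1 : ℝ) 0).symm_apply_apply p.1
  · exact (AddCircle.equivIco (1 : ℝ) 0).symm_apply_apply p.2

theorem cube_apply (a x : E2) : cube a x = toM x := rfl

theorem mem_cube_source (a x : E2) :
    x ∈ (cube a).source ↔ (a 0 - 1 / 2 < x 0 ∧ x 0 < a 0 - 1 / 2 + 1) ∧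
      (a 1 - 1 / 2 < x 1 ∧ x 1 < a 1 - 1 / 2 + 1) := by
  constructor
  · rintro ⟨-, h⟩
    exact h
  · intro h
    exact ⟨trivial, h⟩

theorem self_mem_cube (a : E2) : a ∈ (cube a).source := by
  rw [mem_cube_source]
  refine ⟨⟨?_, ?_⟩, ⟨?_, ?_⟩⟩ <;> linarith

/-- The smooth structure of the torus: the charts are the local inverses of `E2 → M2`. -/
instance instCS : ChartedSpace E2 M2 where
  atlas := {e | ∃ a : E2, e = (cube a).symm}
  chartAt p := (cube (liftM p)).symm
  mem_chart_source p := by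
    have h := (cube (liftM p)).map_source (self_mem_cube (liftM p))
    rw [cube_apply, toM_liftM] at h
    exact h
  chart_mem_atlas p := ⟨_, rfl⟩

theorem chartAt_M (p : M2) : chartAt E2 p = (cube (liftM p)).symm := rfl

theorem extChartAt_M_symm (p : M2) : ((extChartAt 𝓘(ℝ, E2) p).symm : E2 → M2) = toM := by
  funext x
  simp [extChartAt, chartAt_M, cube_apply]

theorem continuous_toM : Continuous toM := by
  unfold toM
  fun_prop

/-- Near a point the inverse of a chart composed with a chart is a translation. -/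
theorem chart_comp_toM (a x : E2) (hx : toM x ∈ (cube a).target) :
    ∃ n : E2, ∀ᶠ y in 𝓝 x, (cube a).symm (toM y) = y + n := by
  set z : E2 := (cube a).symm (toM x) with hz
  have hzs : z ∈ (cube a).source := (cube a).map_target hx
  have hzx : toM z = toM x := by
    rw [← cube_apply a z]
    exact (cube a).right_inv hx
  refine ⟨z - x, ?_⟩
  have hcont : Continuous fun y : E2 => y + (z - x) := continuous_id.add continuous_const
  have hmem : (fun y : E2 => y + (z - x)) x ∈ (cube a).source := by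
    have : x + (z - x) = z := by abel
    change x + (z - x) ∈ (cube a).source
    rw [this]
    exact hzs
  have hev : ∀ᶠ y in 𝓝 x, y + (z - x) ∈ (cube a).source :=
    hcont.continuousAt.preimage_mem_nhds ((cube a).open_source.mem_nhds hmem)
  filter_upwards [hev] with y hy
  have hyt : toM y = toM (y + (z - x)) := by
    have h0 : ((z 0 : ℝ) : TT) = ((x 0 : ℝ) : TT) := congrArg Prod.fst hzx
    have h1 : ((z 1 : ℝ) : TT) = ((x 1 : ℝ) : TT) := congrArg Prod.snd hzx
    refine Prod.ext ?_ ?_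
    · change ((y 0 : ℝ) : TT) = (((y + (z - x)) 0 : ℝ) : TT)
      have : (y + (z - x)) 0 = y 0 + (z 0 - x 0) := rfl
      rw [this, AddCircle.coe_add, AddCircle.coe_sub, h0, sub_self, add_zero]
    · change ((y 1 : ℝ) : TT) = (((y + (z - x)) 1 : ℝ) : TT)
      have : (y + (z - x)) 1 = y 1 + (z 1 - x 1) := rfl
      rw [this, AddCircle.coe_add, AddCircle.coe_sub, h1, sub_self, add_zero]
  rw [hyt, ← cube_apply a]
  exact (cube a).left_inv hy

instance instIM : IsManifold (𝓡 2) ∞ M2 := by
  apply isManifold_of_contDiffOn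
  rintro e e' ⟨a, rfl⟩ ⟨b, rfl⟩
  intro x hx
  have hx1 : x ∈ ((cube a).symm.symm ≫ₕ (cube b).symm).source := hx.1
  have hx2 : toM x ∈ (cube b).target := by
    have h1 := hx1.2
    exact h1
  obtain ⟨n, hn⟩ := chart_comp_toM b x hx2
  have h2 : ContDiffAt ℝ ∞ (fun y : E2 => y + n) x := contDiffAt_id.add contDiffAt_const
  have h3 : ContDiffAt ℝ ∞ (fun y : E2 => (cube b).symm (toM y)) x :=
    h2.congr_of_eventuallyEq hn
  exact h3.contDiffWithinAt

theorem contMDiff_toM : ContMDiff (𝓡 2) (𝓡 2) ∞ toM := by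
  intro x
  have hmem : (cube x).symm ∈ atlas E2 M2 := ⟨x, rfl⟩
  have hmax : (cube x).symm ∈ IsManifold.maximalAtlas (𝓡 2) ∞ M2 :=
    IsManifold.subset_maximalAtlas hmem
  have h1 := contMDiffOn_symm_of_mem_maximalAtlas hmax
  exact h1.contMDiffAt ((cube x).open_source.mem_nhds (self_mem_cube x))

/-- A map of the torus with a smooth lift is smooth. -/
theorem contMDiff_of_lift (F : M2 → M2) (G : E2 → E2) (hG : ContDiff ℝ ∞ G)
    (h : ∀ x, F (toM x) = toM (G x)) : ContMDiff (𝓡 2) (𝓡 2) ∞ F := by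
  intro p
  have hmem : (cube (liftM p)).symm ∈ atlas E2 M2 := ⟨_, rfl⟩
  have hmax : (cube (liftM p)).symm ∈ IsManifold.maximalAtlas (𝓡 2) ∞ M2 :=
    IsManifold.subset_maximalAtlas hmem
  have h1 : ContMDiffOn (𝓡 2) (𝓡 2) ∞ (cube (liftM p)).symm (cube (liftM p)).symm.source :=
    contMDiffOn_of_mem_maximalAtlas hmax
  have hp : p ∈ (cube (liftM p)).symm.source := mem_chart_source E2 p
  have h2 : ContMDiffAt (𝓡 2) (𝓡 2) ∞ (cube (liftM p)).symm p :=
    h1.contMDiffAt ((cube (liftM p)).symm.open_source.mem_nhds hp)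
  have h3 : ContMDiffAt (𝓡 2) (𝓡 2) ∞ (fun q : M2 => toM (G ((cube (liftM p)).symm q))) p :=
    (contMDiff_toM _).comp p ((hG.contMDiff _).comp p h2)
  refine h3.congr_of_eventuallyEq ?_
  filter_upwards [(cube (liftM p)).symm.open_source.mem_nhds hp] with q hq
  rw [← h]
  congr 1
  exact ((cube (liftM p)).right_inv hq).symm

end Pool.Agent.V8H43.SE
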