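import Pool.Agent.V8H43.SE.Mfd

/-!
# A Liouville number and its resonances
-/

set_option autoImplicit false

open Filter Topology Finset

noncomputable section

namespace Pool.Agent.V8H43.SE

/-- the denominators -/
def qq (k : ℕ) : ℕ := 2 ^ (k + 3).factorial

/-- the quotient `qq (k+1) / (2 * qq k ^ 2)` -/
def uu (k : ℕ) : ℕ := 2 ^ ((k + 4).factorial - 2 * (k + 3).factorial - 1)

/-- the times -/
def nn (k : ℕ) : ℕ := uu k * qq k

theorem qq_pos (k : ℕ) : 0 < qq k := by unfold qq; positivity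

theorem uu_pos (k : ℕ) : 0 < uu k := by unfold uu; positivity

theorem fac_succ (k : ℕ) : (k + 4).factorial = (k + 4) * (k + 3).factorial := by
  rw [Nat.factorial_succ]

theorem fac_ge (k : ℕ) : k + 3 ≤ (k + 3).factorial := Nat.self_le_factorial _

theorem fac_lin (k : ℕ) : (k + 4).factorial - 2 * (k + 3).factorial - 1
    = (k + 2) * (k + 3).factorial - 1 := by
  rw [fac_succ]
  have : (k + 4) * (k + 3).factorial = (k + 2) * (k + 3).factorial + 2 * (k + 3).factorial := by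
    ring
  omega

theorem qq_succ (k : ℕ) : qq (k + 1) = 2 * uu k * qq k * qq k := by
  unfold qq uu
  rw [← pow_succ', ← pow_add, ← pow_add]
  congr 1
  have h1 := fac_ge k
  have h2 := fac_succ k
  have h3 : 4 * (k + 3).factorial ≤ (k + 4) * (k + 3).factorial :=
    Nat.mul_le_mul_right _ (by omega)
  have h4 : (k + 1 + 3).factorial = (k + 4).factorial := by
    congr 1
  rw [h4]
  omega

theorem qq_two (k : ℕ) : 2 ≤ qq k := by
  unfold qq
  calc 2 = 2 ^ 1 := rfl
    _ ≤ 2 ^ (k + 3).factorial := Nat.pow_le_pow_right (by norm_num) (Nat.factorial_pos _)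

theorem qq_ge (k : ℕ) : 2 ^ (k + 3) ≤ qq k := Nat.pow_le_pow_right (by norm_num) (fac_ge k)

theorem qq_dvd {i j : ℕ} (h : i ≤ j) : qq i ∣ qq j := by
  induction h with
  | refl => exact dvd_rfl
  | step _ ih =>
    rename_i m _
    refine ih.trans ?_
    rw [qq_succ]
    exact ⟨2 * uu m * qq m, by ring⟩

theorem qq_mono {i j : ℕ} (h : i ≤ j) : qq i ≤ qq j := Nat.le_of_dvd (qq_pos j) (qq_dvd h)

theorem qq_double (k : ℕ) : 2 * qq k ≤ qq (k + 1) := by
  rw [qq_succ]
  have h1 := uu_pos k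
  have h2 := qq_pos k
  calc 2 * qq k = 2 * 1 * 1 * qq k := by ring
    _ ≤ 2 * uu k * qq k * qq k := by
      apply Nat.mul_le_mul_right
      apply Nat.mul_le_mul _ h2
      exact Nat.mul_le_mul_left _ h1

theorem qq_add (k i : ℕ) : 2 ^ i * qq k ≤ qq (k + i) := by
  induction i with
  | zero => simp
  | succ i ih =>
    calc 2 ^ (i + 1) * qq k = 2 * (2 ^ i * qq k) := by ring
      _ ≤ 2 * qq (k + i) := Nat.mul_le_mul_left _ ih
      _ ≤ qq (k + i + 1) := qq_double _

/-- strong gap -/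
theorem qq_gap {j k : ℕ} (h : j < k) : 2 ^ (2 * k) * qq j ≤ qq k := by
  unfold qq
  rw [← pow_add]
  apply Nat.pow_le_pow_right (by norm_num)
  obtain ⟨m, rfl⟩ : ∃ m, k = m + 1 := ⟨k - 1, by omega⟩
  have h1 : (m + 1 + 3).factorial = (m + 4) * (m + 3).factorial := by
    rw [show m + 1 + 3 = (m + 3) + 1 by omega, Nat.factorial_succ]
  have h2 : (j + 3).factorial ≤ (m + 3).factorial := Nat.factorial_le (by omega)
  have h3 := fac_ge m
  rw [h1]
  nlinarith

theorem uu_big (j : ℕ) : 2 ^ (2 * j) ≤ uu j := by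
  unfold uu
  apply Nat.pow_le_pow_right (by norm_num)
  rw [fac_lin]
  have h3 := fac_ge j
  have : (j + 2) * (j + 3) ≤ (j + 2) * (j + 3).factorial := Nat.mul_le_mul_left _ h3
  have h4 : 2 * j + 1 ≤ (j + 2) * (j + 3) := by nlinarith
  omega

theorem uu_pow (k : ℕ) : qq k ^ (k + 1) ≤ uu k := by
  unfold uu qq
  rw [← pow_mul]
  apply Nat.pow_le_pow_right (by norm_num)
  rw [fac_lin]
  have h3 := fac_ge k
  have : (k + 2) * (k + 3).factorial = (k + 3).factorial * (k + 1) + (k + 3).factorial := by ring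
  omega

/-- the rotation number -/
def al : ℝ := ∑' i, 1 / (qq i : ℝ)

/-- the tail -/
def RR (j : ℕ) : ℝ := ∑' i, 1 / (qq (i + (j + 1)) : ℝ)

/-- the numerators -/
def PP (j : ℕ) : ℕ := ∑ i ∈ range (j + 1), qq j / qq i

theorem qqr_pos (k : ℕ) : (0 : ℝ) < qq k := by exact_mod_cast qq_pos k

theorem tail_bound (j i : ℕ) : 1 / (qq (i + (j + 1)) : ℝ) ≤ (1 / 2) ^ i * (1 / (qq (j + 1) : ℝ)) := by
  have h1 : ((2 ^ i * qq (j + 1) : ℕ) : ℝ) ≤ (qq (i + (j + 1)) : ℝ) := by
    rw [add_comm i]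
    exact_mod_cast qq_add (j + 1) i
  have h2 := qqr_pos (j + 1)
  have h3 : (0 : ℝ) < 2 ^ i * (qq (j + 1) : ℝ) := by positivity
  have h4 : ((1 : ℝ) / 2) ^ i * (1 / (qq (j + 1) : ℝ)) = 1 / (2 ^ i * (qq (j + 1) : ℝ)) := by
    rw [one_div_pow, one_div_mul_one_div]
  rw [h4]
  push_cast at h1
  exact one_div_le_one_div_of_le h3 h1

theorem summable_tail (j : ℕ) : Summable fun i => 1 / (qq (i + (j + 1)) : ℝ) := by
  refine Summable.of_nonneg_of_le (fun i => by positivity) (tail_bound j) ?_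
  exact (summable_geometric_of_lt_one (by norm_num) (by norm_num)).mul_right _

theorem summable_q : Summable fun i => 1 / (qq i : ℝ) :=
  (summable_nat_add_iff 1).1 (summable_tail 0)

theorem RR_nonneg (j : ℕ) : 0 ≤ RR j := tsum_nonneg fun i => by positivity

theorem RR_pos (j : ℕ) : 0 < RR j := by
  have h := (summable_tail j).sum_le_tsum (s := {0}) (fun i _ => by positivity)
  rw [sum_singleton] at h
  refine lt_of_lt_of_le ?_ h
  have := qqr_pos (0 + (j + 1))
  positivity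

theorem RR_le (j : ℕ) : RR j ≤ 2 / (qq (j + 1) : ℝ) := by
  have h1 : HasSum (fun i : ℕ => (1 / 2 : ℝ) ^ i * (1 / (qq (j + 1) : ℝ)))
      (2 * (1 / (qq (j + 1) : ℝ))) := by
    have := hasSum_geometric_two
    exact this.mul_right _
  calc RR j ≤ 2 * (1 / (qq (j + 1) : ℝ)) :=
        hasSum_le (tail_bound j) (summable_tail j).hasSum h1
    _ = 2 / (qq (j + 1) : ℝ) := by ring

theorem al_eq (j : ℕ) : al = (PP j : ℝ) / (qq j : ℝ) + RR j := by
  have h := (summable_q.sum_add_tsum_nat_add (j + 1)).symm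
  rw [al, h, RR]
  congr 1
  unfold PP
  rw [eq_div_iff (qqr_pos j).ne', sum_mul]
  push_cast
  refine sum_congr rfl fun i hi => ?_
  have hd : qq i ∣ qq j := qq_dvd (by simpa [Nat.lt_succ_iff] using hi)
  rw [Nat.cast_div hd (qqr_pos i).ne']
  ring

theorem PP_odd (j : ℕ) : ∃ m, PP (j + 1) = 2 * m + 1 := by
  unfold PP
  rw [sum_range_succ, Nat.div_self (qq_pos _)]
  have h : 2 ∣ ∑ x ∈ range (j + 1), qq (j + 1) / qq x := by
    refine Finset.dvd_sum fun i hi => ?_
    have hi' : i ≤ j := by simpa [Nat.lt_succ_iff] using hi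
    obtain ⟨c, hc⟩ := qq_dvd hi'
    rw [qq_succ]
    have : 2 * uu j * qq j * qq j = qq i * (2 * (uu j * qq j * c)) := by
      rw [hc]; ring
    rw [this, Nat.mul_div_cancel_left _ (qq_pos i)]
    exact ⟨_, rfl⟩
  obtain ⟨m, hm⟩ := h
  exact ⟨m, by rw [hm]⟩

end Pool.Agent.V8H43.SE
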