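import Pool.Agent.V8H43.SE.Num

/-!
# Resonances
-/

set_option autoImplicit false

open Filter Topology Finset

noncomputable section

namespace Pool.Agent.V8H43.SE

/-- `exp (2 π i t)` -/
def ee (t : ℝ) : ℂ := Complex.exp (2 * Real.pi * Complex.I * t)

theorem ee_add (s t : ℝ) : ee (s + t) = ee s * ee t := by
  unfold ee
  rw [← Complex.exp_add]
  congr 1
  push_cast
  ring

theorem ee_zero : ee 0 = 1 := by simp [ee]

theorem ee_nat (n : ℕ) : ee n = 1 := by
  unfold ee
  have := Complex.exp_nat_mul_two_pi_mul_I n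
  rw [← this]
  congr 1
  push_cast
  ring

theorem ee_half (m : ℕ) : ee ((2 * m + 1 : ℝ) / 2) = -1 := by
  have h : ((2 * m + 1 : ℝ) / 2) = (m : ℝ) + 1 / 2 := by ring
  rw [h, ee_add, ee_nat, one_mul]
  unfold ee
  rw [← Complex.exp_pi_mul_I]
  congr 1
  push_cast
  ring

theorem ee_neg (t : ℝ) : ee (-t) * ee t = 1 := by
  rw [← ee_add, neg_add_cancel, ee_zero]

theorem norm_ee (t : ℝ) : ‖ee t‖ = 1 := by
  unfold ee
  rw [show (2 * Real.pi * Complex.I * t : ℂ) = ((2 * Real.pi * t : ℝ) : ℂ) * Complex.I by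
    push_cast; ring]
  exact Complex.norm_exp_ofReal_mul_I _

theorem norm_ee_sub_one (t : ℝ) : ‖ee t - 1‖ ≤ 2 * Real.pi * |t| := by
  unfold ee
  rw [show (2 * Real.pi * Complex.I * t : ℂ) = Complex.I * ((2 * Real.pi * t : ℝ) : ℂ) by
    push_cast; ring]
  refine Real.norm_exp_I_mul_ofReal_sub_one_le.trans ?_
  rw [Real.norm_eq_abs, abs_mul, abs_of_pos Real.two_pi_pos]

theorem continuous_ee : Continuous ee := by
  unfold ee
  fun_prop

theorem fourier_ee (n : ℕ) (t : ℝ) : fourier (n : ℤ) ((t : ℝ) : TT) = ee (n * t) := by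
  rw [fourier_coe_apply]
  unfold ee
  congr 1
  push_cast
  ring

theorem nn_cast (k : ℕ) : (nn k : ℝ) = uu k * qq k := by
  unfold nn; push_cast; ring

theorem qq_succ_cast (k : ℕ) : (qq (k + 1) : ℝ) = 2 * uu k * qq k * qq k := by
  rw [qq_succ]; push_cast; ring

theorem uur_pos (k : ℕ) : (0 : ℝ) < uu k := by exact_mod_cast uu_pos k

theorem RR_le' (k : ℕ) : RR k ≤ 1 / (uu k * qq k * qq k : ℝ) := by
  refine (RR_le k).trans_eq ?_
  rw [qq_succ_cast]
  have h1 := (uur_pos k).ne'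
  have h2 := (qqr_pos k).ne'
  field_simp

/-- resonance, `j > k` -/
theorem res_gt {j k : ℕ} (h : k < j) :
    ‖ee (qq j * (nn k * al)) - 1‖ ≤ 2 * Real.pi * (1 / 2) ^ (j + k) := by
  have e1 : (qq j : ℝ) * (nn k * al) = ((nn k * PP j : ℕ) : ℝ) + nn k * qq j * RR j := by
    rw [al_eq j]
    have := (qqr_pos j).ne'
    push_cast
    field_simp
  rw [e1, ee_add, ee_nat, one_mul]
  refine (norm_ee_sub_one _).trans (mul_le_mul_of_nonneg_left ?_ Real.two_pi_pos.le)
  have hR := RR_nonneg j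
  rw [abs_of_nonneg (by positivity)]
  have h1 : (nn k : ℝ) ≤ qq j / 2 := by
    have h2 : 2 * nn k ≤ qq j := by
      have h3 : 2 * nn k * qq k = qq (k + 1) := by
        rw [qq_succ]; unfold nn; ring
      have h4 := qq_mono (show k + 1 ≤ j from h)
      have h5 := qq_pos k
      nlinarith
    have h3 : ((2 * nn k : ℕ) : ℝ) ≤ (qq j : ℝ) := by exact_mod_cast h2
    push_cast at h3
    linarith
  have hu : (2 : ℝ) ^ (j + k) ≤ uu j := by
    have h2 : 2 ^ (j + k) ≤ 2 ^ (2 * j) := Nat.pow_le_pow_right (by norm_num) (by omega)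
    exact_mod_cast h2.trans (uu_big j)
  have hq := qqr_pos j
  have hup := uur_pos j
  calc (nn k : ℝ) * qq j * RR j ≤ (qq j / 2) * qq j * (1 / (uu j * qq j * qq j : ℝ)) := by
        apply mul_le_mul _ (RR_le' j) hR (by positivity)
        exact mul_le_mul_of_nonneg_right h1 hq.le
    _ = (1 / 2) * (1 / (uu j : ℝ)) := by field_simp
    _ ≤ 1 * (1 / (2 : ℝ) ^ (j + k)) := by
        apply mul_le_mul (by norm_num) _ (by positivity) (by norm_num)
        exact one_div_le_one_div_of_le (by positivity) hu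
    _ = (1 / 2) ^ (j + k) := by rw [one_mul, one_div_pow]

/-- resonance, `j < k` -/
theorem res_lt {j k : ℕ} (h : j < k) :
    ‖ee (qq j * (nn k * al)) - 1‖ ≤ 2 * Real.pi * (1 / 2) ^ (j + k) := by
  have e1 : (qq j : ℝ) * (nn k * al) = ((uu k * qq j * PP k : ℕ) : ℝ) + qq j * (uu k * qq k) * RR k := by
    rw [al_eq k, nn_cast]
    have := (qqr_pos k).ne'
    push_cast
    field_simp
  rw [e1, ee_add, ee_nat, one_mul]
  refine (norm_ee_sub_one _).trans (mul_le_mul_of_nonneg_left ?_ Real.two_pi_pos.le)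
  have hR := RR_nonneg k
  have hq := qqr_pos k
  have hqj := qqr_pos j
  have hup := uur_pos k
  rw [abs_of_nonneg (by positivity)]
  have hu : (2 : ℝ) ^ (j + k) * qq j ≤ qq k := by
    have h2 : 2 ^ (j + k) * qq j ≤ 2 ^ (2 * k) * qq j :=
      Nat.mul_le_mul_right _ (Nat.pow_le_pow_right (by norm_num) (by omega))
    exact_mod_cast h2.trans (qq_gap h)
  calc (qq j : ℝ) * (uu k * qq k) * RR k ≤ qq j * (uu k * qq k) * (1 / (uu k * qq k * qq k : ℝ)) :=
        mul_le_mul_of_nonneg_left (RR_le' k) (by positivity)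
    _ = qq j / qq k := by field_simp
    _ ≤ 1 / (2 : ℝ) ^ (j + k) := by
        rw [div_le_div_iff₀ hq (by positivity)]
        linarith
    _ = (1 / 2) ^ (j + k) := by rw [one_div_pow]

/-- resonance, `j = k` -/
theorem res_eq (k : ℕ) :
    ‖ee (qq k * (nn k * al)) + 1‖ ≤ 2 * Real.pi * (1 / 2) ^ (k + k) := by
  obtain ⟨m, hm⟩ := PP_odd k
  have e1 : (qq k : ℝ) * (nn k * al) = ((2 * m + 1 : ℝ) / 2) + qq (k + 1) / 2 * RR (k + 1) := by
    rw [al_eq (k + 1), nn_cast, hm]
    have h1 := (qqr_pos k).ne'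
    have h2 := (uur_pos k).ne'
    have h3 := (qqr_pos (k + 1)).ne'
    rw [qq_succ_cast] at *
    push_cast
    field_simp
  rw [e1, ee_add, ee_half]
  have e2 : -1 * ee (qq (k + 1) / 2 * RR (k + 1)) + 1 = -(ee (qq (k + 1) / 2 * RR (k + 1)) - 1) := by
    ring
  rw [e2, norm_neg]
  refine (norm_ee_sub_one _).trans (mul_le_mul_of_nonneg_left ?_ Real.two_pi_pos.le)
  have hR := RR_nonneg (k + 1)
  have hq := qqr_pos (k + 1)
  have hup := uur_pos (k + 1)
  rw [abs_of_nonneg (by positivity)]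
  have hu : (2 : ℝ) ^ (k + k) ≤ uu (k + 1) := by
    have h2 : 2 ^ (k + k) ≤ 2 ^ (2 * (k + 1)) := Nat.pow_le_pow_right (by norm_num) (by omega)
    exact_mod_cast h2.trans (uu_big (k + 1))
  have hq1 : (1 : ℝ) ≤ qq (k + 1) := by exact_mod_cast qq_pos (k + 1)
  calc (qq (k + 1) : ℝ) / 2 * RR (k + 1) ≤
        qq (k + 1) / 2 * (1 / (uu (k + 1) * qq (k + 1) * qq (k + 1) : ℝ)) :=
        mul_le_mul_of_nonneg_left (RR_le' _) (by positivity)
    _ = (1 / 2) * (1 / (uu (k + 1) * qq (k + 1))) := by field_simp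
    _ ≤ 1 * (1 / (2 : ℝ) ^ (k + k)) := by
        apply mul_le_mul (by norm_num) _ (by positivity) (by norm_num)
        apply one_div_le_one_div_of_le (by positivity)
        calc (2 : ℝ) ^ (k + k) ≤ uu (k + 1) := hu
          _ = uu (k + 1) * 1 := (mul_one _).symm
          _ ≤ uu (k + 1) * qq (k + 1) := mul_le_mul_of_nonneg_left hq1 hup.le
    _ = (1 / 2) ^ (k + k) := by rw [one_mul, one_div_pow]

/-- the times `nn k` are small for the rotation -/
theorem nn_small (k : ℕ) : ∃ m : ℕ, |(nn k : ℝ) * al - m| ≤ (1 / 2) ^ k := by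
  refine ⟨uu k * PP k, ?_⟩
  have hR := RR_nonneg k
  have hq := qqr_pos k
  have hup := uur_pos k
  have e1 : (nn k : ℝ) * al - ((uu k * PP k : ℕ) : ℝ) = uu k * qq k * RR k := by
    rw [al_eq k, nn_cast]
    push_cast
    field_simp
    ring
  rw [e1, abs_of_nonneg (by positivity)]
  have hu : (2 : ℝ) ^ k ≤ qq k := by
    have h2 : 2 ^ k ≤ 2 ^ (k + 3) := Nat.pow_le_pow_right (by norm_num) (by omega)
    exact_mod_cast h2.trans (qq_ge k)
  calc (uu k : ℝ) * qq k * RR k ≤ uu k * qq k * (1 / (uu k * qq k * qq k : ℝ)) :=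
        mul_le_mul_of_nonneg_left (RR_le' _) (by positivity)
    _ = 1 / qq k := by field_simp
    _ ≤ 1 / (2 : ℝ) ^ k := one_div_le_one_div_of_le (by positivity) hu
    _ = (1 / 2) ^ k := by rw [one_div_pow]

/-- the small divisors -/
def DD (k : ℕ) : ℂ := ee (qq k * al) - 1

theorem norm_DD (k : ℕ) : ‖DD k‖ ≤ 2 * Real.pi * (1 / (uu k * qq k)) := by
  unfold DD
  have e1 : (qq k : ℝ) * al = (PP k : ℕ) + qq k * RR k := by
    rw [al_eq k]
    have := (qqr_pos k).ne'
    field_simp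
  rw [e1, ee_add, ee_nat, one_mul]
  refine (norm_ee_sub_one _).trans (mul_le_mul_of_nonneg_left ?_ Real.two_pi_pos.le)
  have hR := RR_nonneg k
  have hq := qqr_pos k
  have hup := uur_pos k
  rw [abs_of_nonneg (by positivity)]
  calc (qq k : ℝ) * RR k ≤ qq k * (1 / (uu k * qq k * qq k : ℝ)) :=
        mul_le_mul_of_nonneg_left (RR_le' _) (by positivity)
    _ = 1 / (uu k * qq k) := by field_simp

/-- the small divisors beat every power of the frequencies -/
theorem summable_DD (s : ℕ) : Summable fun k => ‖DD k‖ * (qq k : ℝ) ^ s := by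
  have hg : Summable fun k : ℕ => (2 * Real.pi) * (1 / 2 : ℝ) ^ k :=
    (summable_geometric_of_lt_one (by norm_num) (by norm_num)).mul_left _
  refine Summable.of_norm_bounded_eventually_nat hg ?_
  filter_upwards [eventually_ge_atTop s] with k hk
  have hq := qqr_pos k
  have hup := uur_pos k
  have hq1 : (1 : ℝ) ≤ qq k := by exact_mod_cast qq_pos k
  rw [Real.norm_of_nonneg (by positivity)]
  have h1 : (qq k : ℝ) ^ s ≤ uu k := by
    have h2 : (qq k : ℝ) ^ s ≤ (qq k : ℝ) ^ (k + 1) := pow_le_pow_right₀ hq1 (by omega)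
    have h3 : ((qq k ^ (k + 1) : ℕ) : ℝ) ≤ (uu k : ℝ) := by exact_mod_cast uu_pow k
    push_cast at h3
    exact h2.trans h3
  have hu : (2 : ℝ) ^ k ≤ qq k := by
    have h2 : 2 ^ k ≤ 2 ^ (k + 3) := Nat.pow_le_pow_right (by norm_num) (by omega)
    exact_mod_cast h2.trans (qq_ge k)
  calc ‖DD k‖ * (qq k : ℝ) ^ s ≤ (2 * Real.pi * (1 / (uu k * qq k))) * uu k :=
        mul_le_mul (norm_DD k) h1 (by positivity) (by positivity)
    _ = 2 * Real.pi * (1 / qq k) := by field_simp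
    _ ≤ 2 * Real.pi * (1 / 2) ^ k := by
        apply mul_le_mul_of_nonneg_left _ Real.two_pi_pos.le
        rw [one_div_pow]
        exact one_div_le_one_div_of_le (by positivity) hu

end Pool.Agent.V8H43.SE
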