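import Pool.Agent.V8H43.SE.Res

/-!
# Lacunary trigonometric series
-/

set_option autoImplicit false

open Filter Topology
open scoped ContDiff

noncomputable section

namespace Pool.Agent.V8H43.SE

/-- the characters -/
def ff (k : ℕ) (x : TT) : ℂ := fourier (qq k : ℤ) x

theorem ff_coe (k : ℕ) (t : ℝ) : ff k ((t : ℝ) : TT) = ee (qq k * t) := fourier_ee _ _

theorem norm_ff (k : ℕ) (x : TT) : ‖ff k x‖ = 1 := by
  unfold ff
  rw [fourier_apply]
  exact Circle.norm_coe _

theorem ff_add (k : ℕ) (x y : TT) : ff k (x + y) = ff k x * ff k y := by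
  unfold ff
  rw [fourier_apply, fourier_apply, fourier_apply, smul_add, AddCircle.toCircle_add, Circle.coe_mul]

theorem continuous_ff (k : ℕ) : Continuous (ff k) := (fourier (qq k : ℤ)).continuous

theorem ff_zero (k : ℕ) : ff k 0 = 1 := by
  have h := ff_coe k 0
  rw [mul_zero, ee_zero] at h
  exact_mod_cast h

/-- the series -/
def Tr (z : ℕ → ℂ) (x : TT) : ℝ := ∑' k, (z k * ff k x).re

/-- absolute summability -/
def AS (z : ℕ → ℂ) : Prop := Summable fun k => ‖z k‖

theorem term_le (z : ℕ → ℂ) (x : TT) (k : ℕ) : |(z k * ff k x).re| ≤ ‖z k‖ := by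
  refine (Complex.abs_re_le_norm _).trans ?_
  rw [norm_mul, norm_ff, mul_one]

theorem AS.summable {z : ℕ → ℂ} (h : AS z) (x : TT) : Summable fun k => (z k * ff k x).re :=
  Summable.of_norm_bounded h fun k => term_le z x k

theorem continuous_Tr {z : ℕ → ℂ} (h : AS z) : Continuous (Tr z) := by
  refine continuous_tsum (fun k => ?_) h fun k x => term_le z x k
  exact Complex.continuous_re.comp (continuous_const.mul (continuous_ff k))

theorem Tr_shift (z : ℕ → ℂ) (x s : TT) : Tr z (x + s) = Tr (fun k => z k * ff k s) x := by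
  unfold Tr
  refine tsum_congr fun k => ?_
  rw [ff_add]
  congr 1
  ring

theorem Tr_add {z w : ℕ → ℂ} (hz : AS z) (hw : AS w) (x : TT) :
    Tr z x + Tr w x = Tr (fun k => z k + w k) x := by
  unfold Tr
  rw [← (hz.summable x).tsum_add (hw.summable x)]
  refine tsum_congr fun k => ?_
  rw [add_mul, Complex.add_re]

theorem Tr_sub {z w : ℕ → ℂ} (hz : AS z) (hw : AS w) (x : TT) :
    Tr z x - Tr w x = Tr (fun k => z k - w k) x := by
  unfold Tr
  rw [← (hz.summable x).tsum_sub (hw.summable x)]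
  refine tsum_congr fun k => ?_
  rw [sub_mul, Complex.sub_re]

theorem Tr_mul (r : ℝ) (z : ℕ → ℂ) (x : TT) : r * Tr z x = Tr (fun k => r * z k) x := by
  unfold Tr
  rw [← tsum_mul_left]
  refine tsum_congr fun k => ?_
  rw [mul_assoc, Complex.re_ofReal_mul]

theorem abs_Tr_le {z : ℕ → ℂ} (hz : AS z) (x : TT) : |Tr z x| ≤ ∑' k, ‖z k‖ := by
  unfold Tr
  have h : Summable fun k => |(z k * ff k x).re| :=
    Summable.of_nonneg_of_le (fun _ => abs_nonneg _) (fun k => term_le z x k) hz
  calc |∑' k, (z k * ff k x).re| ≤ ∑' k, |(z k * ff k x).re| := by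
        have := norm_tsum_le_tsum_norm (f := fun k => (z k * ff k x).re) (by simpa using h)
        simpa using this
    _ ≤ ∑' k, ‖z k‖ := h.tsum_le_tsum (fun k => term_le z x k) hz

theorem hasDerivAt_ee (a t : ℝ) :
    HasDerivAt (fun t : ℝ => ee (a * t)) (2 * Real.pi * Complex.I * a * ee (a * t)) t := by
  unfold ee
  have h1 : HasDerivAt (fun t : ℝ => (2 * Real.pi * Complex.I * ((a * t : ℝ) : ℂ)))
      (2 * Real.pi * Complex.I * a) t := by
    have h2 : HasDerivAt (fun t : ℝ => ((t : ℝ) : ℂ)) 1 t := Complex.ofRealCLM.hasDerivAt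
    have h3 := h2.const_mul (2 * Real.pi * Complex.I * a)
    refine (h3.congr_deriv (mul_one _)).congr_of_eventuallyEq ?_
    filter_upwards with s
    push_cast
    ring
  have h4 := h1.cexp
  refine h4.congr_deriv ?_
  ring

theorem hasDerivAt_term (z : ℂ) (a t : ℝ) :
    HasDerivAt (fun t : ℝ => (z * ee (a * t)).re)
      ((z * (2 * Real.pi * Complex.I * a) * ee (a * t)).re) t := by
  have h := (hasDerivAt_ee a t).const_mul z
  have h2 := (Complex.reCLM.hasFDerivAt.comp_hasDerivAt t h)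
  refine h2.congr_deriv ?_
  simp only [Complex.reCLM_apply]
  congr 1
  ring

theorem iteratedDeriv_term (s : ℕ) (z : ℂ) (a : ℝ) :
    iteratedDeriv s (fun t : ℝ => (z * ee (a * t)).re) =
      fun t : ℝ => (z * (2 * Real.pi * Complex.I * a) ^ s * ee (a * t)).re := by
  induction s with
  | zero => simp
  | succ s ih =>
    rw [iteratedDeriv_succ, ih]
    funext t
    rw [(hasDerivAt_term (z * (2 * Real.pi * Complex.I * a) ^ s) a t).deriv]
    congr 1
    ring

theorem contDiff_term (z : ℂ) (a : ℝ) : ContDiff ℝ ∞ (fun t : ℝ => (z * ee (a * t)).re) := by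
  refine Complex.reCLM.contDiff.comp (contDiff_const.mul ?_)
  unfold ee
  refine ContDiff.cexp ?_
  refine contDiff_const.mul ?_
  exact Complex.ofRealCLM.contDiff.comp (contDiff_const.mul contDiff_id)

/-- the lift of the series to the line is smooth -/
theorem contDiff_Tr {z : ℕ → ℂ} (h : ∀ s : ℕ, Summable fun k => ‖z k‖ * (qq k : ℝ) ^ s) :
    ContDiff ℝ ∞ (fun t : ℝ => Tr z ((t : ℝ) : TT)) := by
  have e : (fun t : ℝ => Tr z ((t : ℝ) : TT)) =
      fun t : ℝ => ∑' k, (z k * ee (qq k * t)).re := by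
    funext t
    unfold Tr
    refine tsum_congr fun k => ?_
    rw [ff_coe]
  rw [e]
  refine contDiff_tsum (N := (⊤ : ℕ∞)) (v := fun s k => (2 * Real.pi) ^ s * (‖z k‖ * (qq k : ℝ) ^ s))
    (fun k => contDiff_term _ _) (fun s _ => (h s).mul_left _) ?_
  intro s k t _
  rw [norm_iteratedFDeriv_eq_norm_iteratedDeriv, iteratedDeriv_term]
  refine (Complex.abs_re_le_norm _).trans ?_
  rw [norm_mul, norm_mul, norm_ee, mul_one, norm_pow]
  have : ‖(2 * Real.pi * Complex.I * (qq k : ℝ) : ℂ)‖ = 2 * Real.pi * qq k := by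
    rw [norm_mul, norm_mul, Complex.norm_I, mul_one]
    simp [abs_of_pos Real.pi_pos]
  rw [this, mul_pow]
  exact le_of_eq (by ring)

end Pool.Agent.V8H43.SE
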