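import Pool.Agent.V8H43.SE.Mfd

/-!
# The Haar measure of the torus in charts
-/

set_option autoImplicit false

open scoped Manifold ContDiff Topology
open Metric Set MeasureTheory

noncomputable section

namespace Pool.Agent.V8H43.SE

/-- Haar measure of the torus -/
abbrev nu : Measure M2 := (volume : Measure M2)

theorem mp_hE : MeasurePreserving (hE : E2 → ℝ × ℝ) volume volume := by
  have h1 : MeasurePreserving (WithLp.ofLp : E2 → (Fin 2 → ℝ)) volume volume :=
    PiLp.volume_preserving_ofLp (Fin 2)
  have h2 := volume_preserving_finTwoArrow ℝ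
  exact h2.comp h1

theorem mp_coe (t : ℝ) : MeasurePreserving ((↑) : ℝ → TT)
    (volume.restrict (Ioo t (t + 1))) volume := by
  have h := AddCircle.measurePreserving_mk (1 : ℝ) t
  rwa [← restrict_Ioo_eq_restrict_Ioc] at h

theorem mp_toM (a : E2) : MeasurePreserving toM (volume.restrict (cube a).source) nu := by
  have h1 : MeasurePreserving (Prod.map ((↑) : ℝ → TT) ((↑) : ℝ → TT))
      ((volume.restrict (Ioo (a 0 - 1 / 2) (a 0 - 1 / 2 + 1))).prod
        (volume.restrict (Ioo (a 1 - 1 / 2) (a 1 - 1 / 2 + 1)))) (volume.prod volume) :=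
    (mp_coe _).prod (mp_coe _)
  rw [Measure.prod_restrict] at h1
  have h2 := mp_hE.restrict_preimage_emb hE.measurableEmbedding
    (Ioo (a 0 - 1 / 2) (a 0 - 1 / 2 + 1) ×ˢ Ioo (a 1 - 1 / 2) (a 1 - 1 / 2 + 1))
  have h3 := h1.comp h2
  have h4 : (hE : E2 → ℝ × ℝ) ⁻¹'
      (Ioo (a 0 - 1 / 2) (a 0 - 1 / 2 + 1) ×ˢ Ioo (a 1 - 1 / 2) (a 1 - 1 / 2 + 1)) =
      (cube a).source := by
    ext x
    rw [mem_cube_source]
    rfl
  rw [h4] at h3
  exact h3

theorem chart_measure (a : E2) :
    Measure.map (⇑(cube a).symm) (nu.restrict (cube a).symm.source) =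
      (volume : Measure E2).restrict (cube a).symm.target := by
  have hs : (cube a).symm.source = (cube a).target := rfl
  have ht : (cube a).symm.target = (cube a).source := rfl
  rw [hs, ht]
  have hae : AEMeasurable (⇑(cube a).symm) (nu.restrict (cube a).target) :=
    (cube a).continuousOn_symm.aemeasurable (cube a).open_target.measurableSet
  have hto : AEMeasurable toM (volume.restrict (cube a).source) :=
    continuous_toM.measurable.aemeasurable
  -- the image of the restricted measure
  have h1 : Measure.map toM (volume.restrict (cube a).source) = nu.restrict (cube a).target := by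
    have h2 := (mp_toM a).map_eq
    ext s hs
    rw [Measure.map_apply continuous_toM.measurable hs,
      Measure.restrict_apply hs, ← h2, Measure.map_apply continuous_toM.measurable
        (hs.inter (cube a).open_target.measurableSet),
      Measure.restrict_apply (continuous_toM.measurable hs),
      Measure.restrict_apply (continuous_toM.measurable
        (hs.inter (cube a).open_target.measurableSet))]
    congr 1
    ext x
    constructor
    · rintro ⟨h3, h4⟩
      exact ⟨⟨h3, (cube a).map_source h4⟩, h4⟩
    · rintro ⟨⟨h3, _⟩, h4⟩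
      exact ⟨h3, h4⟩
  rw [← h1, AEMeasurable.map_map_of_aemeasurable (by rw [h1]; exact hae) hto]
  have h2 : (⇑(cube a).symm ∘ toM) =ᵐ[volume.restrict (cube a).source] id := by
    filter_upwards [ae_restrict_mem (cube a).open_source.measurableSet] with x hx
    exact (cube a).left_inv hx
  rw [Measure.map_congr h2, Measure.map_id]

theorem vol_cond : ∀ e ∈ atlas E2 M2, ∃ ρ : E2 → ℝ,
    ContDiffOn ℝ ∞ ρ e.target ∧ (∀ y ∈ e.target, 0 < ρ y) ∧
      Measure.map (⇑e) (nu.restrict e.source) =
        (volume.withDensity (fun y => ENNReal.ofReal (ρ y))).restrict e.target := by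
  rintro e ⟨a, rfl⟩
  refine ⟨fun _ => 1, contDiffOn_const, fun _ _ => one_pos, ?_⟩
  rw [chart_measure]
  simp

end Pool.Agent.V8H43.SE
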